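import Mathlib
import Pool.Agent.H49.RRDefs
import Pool.Agent.H49.PowerForm

open Polynomial Finset

namespace Pool.Agent.H62LR

open Pool.Agent.H49.RR

/-- evaluation of the polynomial with coefficients `a 0, …, a n` at a complex number -/
noncomputable def ev (n : ℕ) (a : ℕ → ℝ) (z : ℂ) : ℂ := ∑ k ∈ range (n + 1), (a k : ℂ) * z ^ k

/-- `a 0, …, a n > 0` and `∑_{k ≤ n} a_k z^k` has no zero in the upper half plane
(equivalently, since the coefficients are real, it is real-rooted). -/
def PF (n : ℕ) (a : ℕ → ℝ) : Prop := (∀ k ≤ n, 0 < a k) ∧ ∀ z : ℂ, 0 < z.im → ev n a z ≠ 0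

lemma ev_congr {n : ℕ} {a b : ℕ → ℝ} (h : ∀ k ≤ n, a k = b k) (z : ℂ) : ev n a z = ev n b z := by
  unfold ev
  refine Finset.sum_congr rfl (fun k hk => ?_)
  rw [h k (by simpa [Nat.lt_succ_iff] using hk)]

lemma PF.congr {n : ℕ} {a b : ℕ → ℝ} (ha : PF n a) (h : ∀ k ≤ n, a k = b k) : PF n b :=
  ⟨fun k hk => h k hk ▸ ha.1 k hk, fun z hz => by rw [← ev_congr h]; exact ha.2 z hz⟩

lemma ev_conj (n : ℕ) (a : ℕ → ℝ) (z : ℂ) :
    ev n a ((starRingEnd ℂ) z) = (starRingEnd ℂ) (ev n a z) := by
  unfold ev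
  simp

lemma PF.ne_zero {n : ℕ} {a : ℕ → ℝ} (ha : PF n a) {z : ℂ} (hz : z.im ≠ 0) : ev n a z ≠ 0 := by
  rcases lt_or_gt_of_ne hz with h | h
  · intro h0
    have h1 := ha.2 ((starRingEnd ℂ) z) (by simpa using h)
    rw [ev_conj, h0, map_zero] at h1
    exact h1 rfl
  · exact ha.2 z h

/-- the polynomial with coefficients `a 0, …, a n` -/
noncomputable def poly (n : ℕ) (a : ℕ → ℝ) : ℝ[X] := ∑ k ∈ range (n + 1), monomial k (a k)

lemma coeff_poly (n : ℕ) (a : ℕ → ℝ) (k : ℕ) : (poly n a).coeff k = if k ≤ n then a k else 0 := by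
  unfold poly
  rw [finsetSum_coeff]
  simp only [coeff_monomial]
  rw [Finset.sum_ite_eq']
  simp

lemma natDegree_poly {n : ℕ} {a : ℕ → ℝ} (h : a n ≠ 0) : (poly n a).natDegree = n := by
  apply natDegree_eq_of_le_of_coeff_ne_zero
  · rw [natDegree_le_iff_coeff_eq_zero]
    intro k hk
    rw [coeff_poly, if_neg (by omega)]
  · rw [coeff_poly, if_pos le_rfl]
    exact h

lemma aeval_poly (n : ℕ) (a : ℕ → ℝ) (z : ℂ) : aeval z (poly n a) = ev n a z := by
  unfold poly ev
  rw [map_sum]
  refine Finset.sum_congr rfl (fun k _ => ?_)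
  rw [aeval_monomial]
  simp

lemma PF.realRooted {n : ℕ} {a : ℕ → ℝ} (ha : PF n a) : RealRooted (poly n a) := by
  right
  intro z hz
  by_contra h
  exact ha.ne_zero h (by rw [← aeval_poly]; exact hz)

lemma PF.pplus {n : ℕ} {a : ℕ → ℝ} (ha : PF n a) : PPlus (poly n a) := by
  refine ⟨fun k hk => ?_, ha.realRooted⟩
  rw [natDegree_poly (ha.1 n le_rfl).ne'] at hk
  rw [coeff_poly, if_pos hk]
  exact ha.1 k hk

lemma poly_coeff (p : ℝ[X]) : poly p.natDegree p.coeff = p := by
  ext k
  rw [coeff_poly]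
  split_ifs with h
  · rfl
  · rw [coeff_eq_zero_of_natDegree_lt (by omega)]

lemma pf_of_pplus {p : ℝ[X]} (hp : PPlus p) : PF p.natDegree p.coeff := by
  refine ⟨hp.1, fun z hz h => ?_⟩
  rcases hp.2 with h0 | h0
  · have := hp.1 0 (Nat.zero_le _)
    rw [h0] at this
    simp at this
  · have h1 := h0 z (by rw [← poly_coeff p, aeval_poly]; exact h)
    exact hz.ne' h1

lemma entrywise_eq (F : ℝ → ℝ) (p : ℝ[X]) : entrywise F p = poly p.natDegree (fun k => F (p.coeff k)) :=
  rfl

/-- constant multiples -/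
lemma PF.const_mul {n : ℕ} {a : ℕ → ℝ} (ha : PF n a) {c : ℝ} (hc : 0 < c) :
    PF n (fun k => c * a k) := by
  refine ⟨fun k hk => mul_pos hc (ha.1 k hk), fun z hz => ?_⟩
  have : ev n (fun k => c * a k) z = c * ev n a z := by
    unfold ev
    rw [Finset.mul_sum]
    refine Finset.sum_congr rfl (fun k _ => ?_)
    push_cast
    ring
  rw [this]
  exact mul_ne_zero (by exact_mod_cast hc.ne') (ha.2 z hz)

/-- scaling of the variable -/
lemma PF.scale {n : ℕ} {a : ℕ → ℝ} (ha : PF n a) {ρ : ℝ} (hρ : 0 < ρ) :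
    PF n (fun k => ρ ^ k * a k) := by
  refine ⟨fun k hk => mul_pos (pow_pos hρ k) (ha.1 k hk), fun z hz => ?_⟩
  have : ev n (fun k => ρ ^ k * a k) z = ev n a (ρ * z) := by
    unfold ev
    refine Finset.sum_congr rfl (fun k _ => ?_)
    push_cast
    ring
  rw [this]
  refine ha.2 _ ?_
  simp only [Complex.mul_im, Complex.ofReal_re, Complex.ofReal_im, zero_mul, add_zero]
  exact mul_pos hρ hz

/-- reversal -/
lemma PF.reverse {n : ℕ} {a : ℕ → ℝ} (ha : PF n a) : PF n (fun k => a (n - k)) := by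
  refine ⟨fun k hk => ha.1 _ (by omega), fun z hz => ?_⟩
  have hz0 : z ≠ 0 := by
    rintro rfl
    simp at hz
  have : ev n (fun k => a (n - k)) z = z ^ n * ev n a z⁻¹ := by
    unfold ev
    rw [Finset.mul_sum, ← Finset.sum_range_reflect]
    refine Finset.sum_congr rfl (fun k hk => ?_)
    have hk' : k ≤ n := by simpa [Nat.lt_succ_iff] using hk
    have e1 : n + 1 - 1 - k = n - k := by omega
    rw [e1]
    have e2 : n - (n - k) = k := by omega
    beta_reduce
    rw [e2]
    have e3 : z ^ n = z ^ (n - k) * z ^ k := by rw [← pow_add]; congr 1; omega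
    rw [e3, inv_pow]
    field_simp
  rw [this]
  refine mul_ne_zero (pow_ne_zero _ hz0) (ha.ne_zero ?_)
  rw [Complex.inv_im]
  have := Complex.normSq_pos.2 hz0
  have h2 : -z.im / Complex.normSq z < 0 := div_neg_of_neg_of_pos (by linarith) this
  exact h2.ne

/-- factorisation into linear factors `1 + ρ z` with `ρ > 0`. -/
lemma PF.exists_roots {n : ℕ} {a : ℕ → ℝ} (ha : PF n a) :
    ∃ m : Multiset ℝ, Multiset.card m = n ∧ (∀ ρ ∈ m, 0 < ρ) ∧
      poly n a = C (a 0) * (m.map (fun ρ => 1 + C ρ * X)).prod := by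
  have hdeg : (poly n a).natDegree = n := natDegree_poly (ha.1 n le_rfl).ne'
  have h0 : poly n a ≠ 0 := by
    intro h
    have := coeff_poly n a 0
    rw [h, if_pos (Nat.zero_le _)] at this
    simp at this
    exact (ha.1 0 (Nat.zero_le _)).ne this
  have hs := Pool.Agent.H49.RR.RealRooted.splits ha.realRooted
  have hcoef : ∀ k, 0 ≤ (poly n a).coeff k := by
    intro k
    rw [coeff_poly]
    split_ifs with h
    · exact (ha.1 k h).le
    · exact le_rfl
  have hneg : ∀ x ∈ (poly n a).roots, x < 0 := by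
    intro x hx
    have h1 := Pool.Agent.H49.PowerForm.roots_nonpos h0 hcoef x hx
    rcases h1.lt_or_eq with h | h
    · exact h
    · exfalso
      rw [h, mem_roots h0, IsRoot.def, ← coeff_zero_eq_eval_zero, coeff_poly,
        if_pos (Nat.zero_le _)] at hx
      exact (ha.1 0 (Nat.zero_le _)).ne' hx
  refine ⟨(poly n a).roots.map (fun x => -x⁻¹), ?_, ?_, ?_⟩
  · rw [Multiset.card_map, ← hs.natDegree_eq_card_roots, hdeg]
  · intro ρ hρ
    obtain ⟨x, hx, rfl⟩ := Multiset.mem_map.1 hρ
    have := inv_neg''.2 (hneg x hx)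
    linarith
  · have hlin : ∀ (s : Multiset ℝ), (∀ x ∈ s, x < 0) →
        (s.map (fun x => X - C x)).prod =
          C ((s.map (fun x => -x)).prod) *
            ((s.map (fun x => -x⁻¹)).map (fun ρ => (1 : ℝ[X]) + C ρ * X)).prod := by
      intro s
      induction s using Multiset.induction_on with
      | empty => intro _; simp
      | cons x s ih =>
        intro hx
        have hx0 : x < 0 := hx x (Multiset.mem_cons_self _ _)
        have ih' := ih (fun y hy => hx y (Multiset.mem_cons_of_mem hy))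
        simp only [Multiset.map_cons, Multiset.prod_cons]
        rw [ih', C_mul]
        have e : (X - C x : ℝ[X]) = C (-x) * (1 + C (-x⁻¹) * X) := by
          rw [mul_add, mul_one, ← mul_assoc, ← C_mul]
          have : -x * -x⁻¹ = 1 := by
            rw [neg_mul_neg, mul_inv_cancel₀ hx0.ne]
          rw [this, C_1, one_mul, C_neg]
          ring
        rw [e]
        ring
    have e1 := hs.eq_prod_roots
    have e2 := hlin _ hneg
    rw [e2, ← mul_assoc, ← C_mul] at e1
    have e3 : (poly n a).leadingCoeff * ((poly n a).roots.map (fun x => -x)).prod = a 0 := by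
      have h1 := congrArg (fun q => q.eval 0) e1
      simp only [eval_mul, eval_C] at h1
      have h2 : eval 0 (((poly n a).roots.map (fun x => -x⁻¹)).map
          (fun ρ => (1 : ℝ[X]) + C ρ * X)).prod = 1 := by
        rw [eval_multiset_prod, Multiset.map_map]
        simp
      rw [h2, mul_one, ← coeff_zero_eq_eval_zero, coeff_poly, if_pos (Nat.zero_le _)] at h1
      exact h1.symm
    rw [e3] at e1
    exact e1

end Pool.Agent.H62LR
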