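import Mathlib
import Pool.Agent.H62LR.Basic

open Polynomial Finset

namespace Pool.Agent.H62LR

/-- sums of points of a disc through `0` tangent to the real axis -/
lemma disc_sum {t : ℝ} (ht : 0 ≤ t) (s : Multiset ℂ)
    (hs : ∀ w ∈ s, t * Complex.normSq w + w.im ≤ 0) :
    t * Complex.normSq s.sum + (Multiset.card s : ℝ) * s.sum.im ≤ 0 := by
  induction s using Multiset.induction_on with
  | empty => simp
  | cons a s ih =>
    have h1 := hs a (Multiset.mem_cons_self _ _)
    have h2 := ih (fun w hw => hs w (Multiset.mem_cons_of_mem hw))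
    rw [Multiset.sum_cons, Multiset.card_cons]
    push_cast
    set S := s.sum
    set c : ℝ := (Multiset.card s : ℝ) with hc
    have hc0 : 0 ≤ c := Nat.cast_nonneg _
    rcases eq_or_lt_of_le hc0 with h0 | h0
    · have hs0 : s = 0 := by
        rw [← Multiset.card_eq_zero]
        have h0' : (Multiset.card s : ℝ) = 0 := by rw [← hc]; exact h0.symm
        exact_mod_cast h0'
      have hS0 : S = 0 := by simp [S, hs0]
      rw [hS0, ← h0]
      simpa using h1
    · have e1 : Complex.normSq (a + S) = a.re ^ 2 + a.im ^ 2 + (S.re ^ 2 + S.im ^ 2) +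
          2 * (a.re * S.re + a.im * S.im) := by
        rw [Complex.normSq_apply]
        simp only [Complex.add_re, Complex.add_im]
        ring
      have e2 : Complex.normSq a = a.re ^ 2 + a.im ^ 2 := by
        rw [Complex.normSq_apply]; ring
      have e3 : Complex.normSq S = S.re ^ 2 + S.im ^ 2 := by
        rw [Complex.normSq_apply]; ring
      rw [e2] at h1
      rw [e3] at h2
      rw [e1, Complex.add_im]
      -- `c * target ≤ c (c+1) h1 + (c+1) h2`
      have key : c * (t * (a.re ^ 2 + a.im ^ 2 + (S.re ^ 2 + S.im ^ 2) +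
          2 * (a.re * S.re + a.im * S.im)) + (c + 1) * (a.im + S.im)) ≤ 0 := by
        have h3 : 0 ≤ t * ((c * a.re - S.re) ^ 2 + (c * a.im - S.im) ^ 2) := by positivity
        have h4 : c * (c + 1) * (t * (a.re ^ 2 + a.im ^ 2) + a.im) ≤ 0 :=
          mul_nonpos_of_nonneg_of_nonpos (by positivity) h1
        have h5 : (c + 1) * (t * (S.re ^ 2 + S.im ^ 2) + c * S.im) ≤ 0 :=
          mul_nonpos_of_nonneg_of_nonpos (by positivity) h2
        nlinarith
      by_contra hcon
      push Not at hcon
      have := mul_pos h0 hcon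
      linarith

/-- Laguerre's theorem on polar derivatives, for the upper half plane. -/
lemma polar_ne_zero {P : ℂ[X]} {n : ℕ} (hn : 0 < n) (hdeg : P.natDegree ≤ n)
    (hP : ∀ z : ℂ, 0 < z.im → P.eval z ≠ 0) {z ζ : ℂ} (hz : 0 < z.im) (hζ : 0 < ζ.im) :
    (n : ℂ) * P.eval z + (ζ - z) * P.derivative.eval z ≠ 0 := by
  intro h0
  have hPz := hP z hz
  have hsum := (IsAlgClosed.splits P).eval_derivative_div_eval_of_ne_zero hPz
  set s : Multiset ℂ := P.roots.map (fun r => 1 / (z - r)) with hs
  have hS : P.derivative.eval z = P.eval z * s.sum := by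
    rw [← hsum, mul_div_cancel₀ _ hPz]
  have h1 : (n : ℂ) + (ζ - z) * s.sum = 0 := by
    rw [hS] at h0
    have : P.eval z * ((n : ℂ) + (ζ - z) * s.sum) = 0 := by linear_combination h0
    rcases mul_eq_zero.1 this with h | h
    · exact absurd h hPz
    · exact h
  have hmem : ∀ w ∈ s, z.im * Complex.normSq w + w.im ≤ 0 := by
    intro w hw
    obtain ⟨r, hr, rfl⟩ := Multiset.mem_map.1 hw
    have hr0 : r.im ≤ 0 := by
      by_contra hc
      push Not at hc
      exact hP r hc (by rw [mem_roots'] at hr; exact hr.2)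
    have hu : 0 < (z - r).im := by rw [Complex.sub_im]; linarith
    have hu0 : z - r ≠ 0 := by
      intro h
      rw [h] at hu
      simp at hu
    have hN := Complex.normSq_pos.2 hu0
    rw [one_div, Complex.normSq_inv, Complex.inv_im]
    have e : z.im * (Complex.normSq (z - r))⁻¹ + -(z - r).im / Complex.normSq (z - r) =
        r.im / Complex.normSq (z - r) := by
      rw [Complex.sub_im]
      field_simp
      ring
    rw [e]
    exact div_nonpos_of_nonpos_of_nonneg hr0 hN.le
  have h2 := disc_sum hz.le s hmem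
  have hcard : (Multiset.card s : ℝ) ≤ n := by
    have : Multiset.card s ≤ n := by
      rw [hs, Multiset.card_map]
      exact (card_roots' P).trans hdeg
    exact_mod_cast this
  set S := s.sum with hSdef
  have hS0 : S ≠ 0 := by
    intro h
    rw [h, mul_zero, add_zero] at h1
    exact hn.ne' (by exact_mod_cast h1)
  have hNS := Complex.normSq_pos.2 hS0
  have hSim : S.im ≤ 0 := by
    by_contra hc
    push Not at hc
    have h3 : 0 < z.im * Complex.normSq S := mul_pos hz hNS
    have h4 : 0 ≤ (Multiset.card s : ℝ) * S.im := by positivity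
    linarith
  have h3 : z.im * Complex.normSq S + (n : ℝ) * S.im ≤ 0 := by
    have := mul_le_mul_of_nonpos_right hcard hSim
    linarith
  -- take the imaginary part of `n * conj S = (z - ζ) * |S|^2`
  have h4 : (n : ℂ) * (starRingEnd ℂ) S = (z - ζ) * (Complex.normSq S : ℂ) := by
    rw [Complex.normSq_eq_conj_mul_self]
    linear_combination (starRingEnd ℂ) S * h1
  have h5 := congrArg Complex.im h4
  simp only [Complex.mul_im, Complex.natCast_re, Complex.natCast_im, Complex.conj_im,
    Complex.conj_re, zero_mul, add_zero, Complex.ofReal_re, Complex.ofReal_im, mul_zero,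
    Complex.sub_im, zero_add] at h5
  have h6 : 0 < ζ.im * Complex.normSq S := mul_pos hζ hNS
  nlinarith

/-- the polynomial `∑_{k ≤ m} binom(m,k) α_k X^k` -/
noncomputable def bin (m : ℕ) (α : ℕ → ℂ) : ℂ[X] :=
  ∑ k ∈ range (m + 1), monomial k ((m.choose k : ℂ) * α k)

lemma eval_bin (m : ℕ) (α : ℕ → ℂ) (z : ℂ) :
    (bin m α).eval z = ∑ k ∈ range (m + 1), (m.choose k : ℂ) * α k * z ^ k := by
  unfold bin
  rw [eval_finsetSum]
  simp

lemma natDegree_bin (m : ℕ) (α : ℕ → ℂ) : (bin m α).natDegree ≤ m := by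
  unfold bin
  refine natDegree_sum_le_of_forall_le _ _ (fun k hk => ?_)
  refine (natDegree_monomial_le _).trans ?_
  simpa [Nat.lt_succ_iff] using hk

lemma bin_step (m : ℕ) (α : ℕ → ℂ) (ζ z : ℂ) :
    ((m + 1 : ℕ) : ℂ) * (bin (m + 1) α).eval z + (ζ - z) * (bin (m + 1) α).derivative.eval z =
      ((m + 1 : ℕ) : ℂ) * (bin m (fun k => α k + ζ * α (k + 1))).eval z := by
  have hder : (bin (m + 1) α).derivative.eval z =
      ((m + 1 : ℕ) : ℂ) * ∑ k ∈ range (m + 1), (m.choose k : ℂ) * α (k + 1) * z ^ k := by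
    unfold bin
    rw [derivative_sum, eval_finsetSum, Finset.sum_range_succ', Finset.mul_sum]
    simp only [derivative_monomial, eval_monomial, Nat.cast_zero, mul_zero, zero_mul, add_zero]
    refine Finset.sum_congr rfl (fun k _ => ?_)
    have h := Nat.add_one_mul_choose_eq m k
    have h' : ((m + 1 : ℕ) : ℂ) * (m.choose k : ℂ) = ((m + 1).choose (k + 1) : ℂ) * ((k + 1 : ℕ) : ℂ) := by
      exact_mod_cast h
    rw [Nat.add_sub_cancel]
    linear_combination (-(α (k + 1) * z ^ k)) * h'
  have hz : ((m + 1 : ℕ) : ℂ) * (bin (m + 1) α).eval z - z * (bin (m + 1) α).derivative.eval z =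
      ((m + 1 : ℕ) : ℂ) * ∑ k ∈ range (m + 1), (m.choose k : ℂ) * α k * z ^ k := by
    have hd2 : z * (bin (m + 1) α).derivative.eval z =
        ∑ k ∈ range (m + 2), (k : ℂ) * ((m + 1).choose k : ℂ) * α k * z ^ k := by
      unfold bin
      rw [derivative_sum, eval_finsetSum, Finset.mul_sum]
      refine Finset.sum_congr rfl (fun k _ => ?_)
      rw [derivative_monomial, eval_monomial]
      rcases Nat.eq_zero_or_pos k with h | h
      · subst h; simp
      · obtain ⟨j, rfl⟩ := Nat.exists_eq_succ_of_ne_zero h.ne'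
        rw [Nat.succ_sub_one, pow_succ]
        ring
    rw [hd2, eval_bin, Finset.mul_sum, ← Finset.sum_sub_distrib, Finset.sum_range_succ,
      Finset.mul_sum]
    have htop : ((m + 1 : ℕ) : ℂ) * (((m + 1).choose (m + 1) : ℂ) * α (m + 1) * z ^ (m + 1)) -
        ((m + 1 : ℕ) : ℂ) * ((m + 1).choose (m + 1) : ℂ) * α (m + 1) * z ^ (m + 1) = 0 := by ring
    rw [htop, add_zero]
    refine Finset.sum_congr rfl (fun k hk => ?_)
    have hk' : k ≤ m := by simpa [Nat.lt_succ_iff] using hk
    have h := Nat.choose_mul_succ_eq m k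
    have h' : (m.choose k : ℂ) * ((m : ℂ) + 1) = ((m + 1).choose k : ℂ) * ((m : ℂ) + 1 - k) := by
      have := congrArg (fun x : ℕ => (x : ℂ)) h
      simp only [Nat.cast_mul] at this
      rw [Nat.cast_sub (by omega)] at this
      push_cast at this ⊢
      exact this
    push_cast
    linear_combination (-(α k * z ^ k)) * h'
  have hsplit : (bin m (fun k => α k + ζ * α (k + 1))).eval z =
      ∑ k ∈ range (m + 1), (m.choose k : ℂ) * α k * z ^ k +
        ζ * ∑ k ∈ range (m + 1), (m.choose k : ℂ) * α (k + 1) * z ^ k := by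
    rw [eval_bin, Finset.mul_sum, ← Finset.sum_add_distrib]
    refine Finset.sum_congr rfl (fun k _ => ?_)
    ring
  rw [hsplit]
  linear_combination hz + ζ * hder

/-- Grace–Walsh–Szegő, coefficient form, for the upper half plane. -/
lemma gws (s : Multiset ℂ) : ∀ (m : ℕ), Multiset.card s = m → (∀ ζ ∈ s, 0 < ζ.im) →
    ∀ α : ℕ → ℂ, (∀ z : ℂ, 0 < z.im → (bin m α).eval z ≠ 0) →
      ∑ k ∈ range (m + 1), ((s.map (fun ζ => 1 + C ζ * X)).prod : ℂ[X]).coeff k * α k ≠ 0 := by
  induction s using Multiset.induction_on with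
  | empty =>
    intro m hm _ α hα
    simp only [Multiset.card_zero] at hm
    subst hm
    have := hα Complex.I (by simp)
    rw [eval_bin] at this
    simpa using this
  | cons ζ s ih =>
    intro m hm hs α hα
    rw [Multiset.card_cons] at hm
    subst hm
    set m := Multiset.card s with hmdef
    have hζ := hs ζ (Multiset.mem_cons_self _ _)
    have hstep : ∀ z : ℂ, 0 < z.im → (bin m (fun k => α k + ζ * α (k + 1))).eval z ≠ 0 := by
      intro z hz h0
      refine polar_ne_zero (Nat.succ_pos m) (natDegree_bin (m + 1) α) hα hz hζ ?_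
      rw [bin_step, h0, mul_zero]
    have h1 := ih m rfl (fun w hw => hs w (Multiset.mem_cons_of_mem hw)) _ hstep
    set q : ℂ[X] := (s.map (fun ζ => 1 + C ζ * X)).prod with hq
    have hqdeg : q.natDegree ≤ m := by
      rw [hq]
      refine (natDegree_multiset_prod_le _).trans ?_
      rw [Multiset.map_map, hmdef]
      refine (Multiset.sum_le_card_nsmul _ 1 ?_).trans (by simp)
      intro x hx
      obtain ⟨w, _, rfl⟩ := Multiset.mem_map.1 hx
      simp only [Function.comp]
      refine (natDegree_add_le _ _).trans ?_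
      rw [natDegree_one]
      exact max_le (Nat.zero_le _) ((natDegree_C_mul_le _ _).trans natDegree_X_le)
    have hq0 : q.coeff (m + 1) = 0 := coeff_eq_zero_of_natDegree_lt (by omega)
    rw [Multiset.map_cons, Multiset.prod_cons, ← hq]
    have e : ∑ k ∈ range (m + 1 + 1), ((1 + C ζ * X) * q).coeff k * α k =
        ∑ k ∈ range (m + 1), q.coeff k * (α k + ζ * α (k + 1)) := by
      have e1 : ∀ k, ((1 + C ζ * X) * q).coeff k = q.coeff k + ζ * (X * q).coeff k := by
        intro k
        rw [add_mul, one_mul, coeff_add, mul_assoc, coeff_C_mul]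
      simp_rw [e1, add_mul]
      rw [Finset.sum_add_distrib]
      have e2 : ∑ k ∈ range (m + 1 + 1), q.coeff k * α k = ∑ k ∈ range (m + 1), q.coeff k * α k := by
        rw [Finset.sum_range_succ, hq0, zero_mul, add_zero]
      have e3 : ∑ k ∈ range (m + 1 + 1), ζ * (X * q).coeff k * α k =
          ∑ k ∈ range (m + 1), q.coeff k * (ζ * α (k + 1)) := by
        rw [Finset.sum_range_succ']
        simp only [coeff_X_mul, coeff_X_mul_zero, mul_zero, zero_mul, add_zero]
        refine Finset.sum_congr rfl (fun k _ => ?_)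
        ring
      rw [e2, e3, ← Finset.sum_add_distrib]
      refine Finset.sum_congr rfl (fun k _ => ?_)
      ring
    rw [e]
    exact h1

/-- **Composition theorem** (Schur–Szegő): entrywise product divided by binomial coefficients. -/
theorem PF.comp {n : ℕ} {a b : ℕ → ℝ} (ha : PF n a) (hb : PF n b) :
    PF n (fun k => a k * b k / n.choose k) := by
  refine ⟨fun k hk => div_pos (mul_pos (ha.1 k hk) (hb.1 k hk))
    (by exact_mod_cast Nat.choose_pos hk), fun z hz h0 => ?_⟩
  obtain ⟨m, hcard, hpos, hprod⟩ := hb.exists_roots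
  have hb0 : (b 0 : ℂ) ≠ 0 := by exact_mod_cast (hb.1 0 (Nat.zero_le _)).ne'
  set α : ℕ → ℂ := fun k => (a k : ℂ) / (n.choose k : ℂ) with hα
  have hbin : ∀ w : ℂ, (bin n α).eval w = ev n a w := by
    intro w
    rw [eval_bin]
    unfold ev
    refine Finset.sum_congr rfl (fun k hk => ?_)
    have hk' : k ≤ n := by simpa [Nat.lt_succ_iff] using hk
    have : (n.choose k : ℂ) ≠ 0 := by exact_mod_cast (Nat.choose_pos hk').ne'
    rw [hα]
    field_simp
  set s : Multiset ℂ := m.map (fun ρ : ℝ => (ρ : ℂ) * z) with hs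
  have h1 := gws s n (by rw [hs, Multiset.card_map, hcard]) (by
    intro ζ hζ
    obtain ⟨ρ, hρ, rfl⟩ := Multiset.mem_map.1 hζ
    simp only [Complex.mul_im, Complex.ofReal_re, Complex.ofReal_im, zero_mul, add_zero]
    exact mul_pos (hpos ρ hρ) hz) α (fun w hw => by rw [hbin]; exact ha.2 w hw)
  -- coefficients of the product
  have hcoef : ∀ k ≤ n, (b 0 : ℂ) * ((s.map (fun ζ => 1 + C ζ * X)).prod : ℂ[X]).coeff k =
      (b k : ℂ) * z ^ k := by
    intro k hk
    have h2 : ((poly n b).map (algebraMap ℝ ℂ)).comp (C z * X) =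
        C (b 0 : ℂ) * ((s.map (fun ζ => 1 + C ζ * X)).prod : ℂ[X]) := by
      rw [hprod, Polynomial.map_mul, mul_comp, map_C, C_comp]
      congr 1
      rw [hs, Multiset.map_map]
      rw [Polynomial.map_multiset_prod, multiset_prod_comp]
      rw [Multiset.map_map, Multiset.map_map]
      congr 1
      refine Multiset.map_congr rfl (fun ρ _ => ?_)
      simp only [Function.comp, Polynomial.map_add, Polynomial.map_one, Polynomial.map_mul, map_C,
        map_X, add_comp, one_comp, mul_comp, C_comp, X_comp, Complex.coe_algebraMap, C_mul]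
      ring
    have h3 := congrArg (fun q => q.coeff k) h2
    simp only [comp_C_mul_X_coeff, coeff_map, coeff_C_mul] at h3
    rw [← h3, coeff_poly, if_pos hk]
    simp
  apply h1
  have h2 : (b 0 : ℂ) * ∑ k ∈ range (n + 1),
      ((s.map (fun ζ => 1 + C ζ * X)).prod : ℂ[X]).coeff k * α k =
      ev n (fun k => a k * b k / n.choose k) z := by
    rw [Finset.mul_sum]
    unfold ev
    refine Finset.sum_congr rfl (fun k hk => ?_)
    have hk' : k ≤ n := by simpa [Nat.lt_succ_iff] using hk
    rw [← mul_assoc, hcoef k hk', hα]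
    push_cast
    ring
  rw [h0] at h2
  rcases mul_eq_zero.1 h2 with h | h
  · exact absurd h hb0
  · exact h

end Pool.Agent.H62LR
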