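import Mathlib

open Finset MeasureTheory Filter Topology

namespace Pool.Agent.H62LR

/-- the Cauchy (Hilbert) form with kernel `1 / (j + k + g)` -/
noncomputable def cau (g : ℝ) (n : ℕ) (c : ℕ → ℝ) : ℝ :=
  ∑ j ∈ range (n + 1), ∑ k ∈ range (n + 1), c j * c k / (j + k + g)

lemma cau_eq_integral {g : ℝ} (hg : 0 < g) (n : ℕ) (c : ℕ → ℝ) :
    cau g n c = ∫ x in (0 : ℝ)..1, x ^ (g - 1) * (∑ k ∈ range (n + 1), c k * x ^ k) ^ 2 := by
  have hii : ∀ m : ℕ, IntervalIntegrable (fun x : ℝ => x ^ ((m : ℝ) + g - 1)) volume 0 1 :=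
    fun m => intervalIntegral.intervalIntegrable_rpow' (by
      have : (0 : ℝ) ≤ m := Nat.cast_nonneg _
      linarith)
  have hval : ∀ m : ℕ, ∫ x in (0 : ℝ)..1, x ^ ((m : ℝ) + g - 1) = 1 / (m + g) := by
    intro m
    have hm : (0 : ℝ) ≤ m := Nat.cast_nonneg _
    rw [integral_rpow (Or.inl (by linarith))]
    rw [Real.one_rpow, Real.zero_rpow (by linarith)]
    ring_nf
  have e : ∀ x ∈ Set.uIoc (0 : ℝ) 1, x ^ (g - 1) * (∑ k ∈ range (n + 1), c k * x ^ k) ^ 2 =
      ∑ j ∈ range (n + 1), ∑ k ∈ range (n + 1), c j * c k * x ^ (((j + k : ℕ) : ℝ) + g - 1) := by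
    intro x hx
    rw [Set.uIoc_of_le zero_le_one] at hx
    have hx0 : 0 < x := hx.1
    rw [pow_two, Finset.sum_mul_sum, Finset.mul_sum]
    refine Finset.sum_congr rfl (fun j _ => ?_)
    rw [Finset.mul_sum]
    refine Finset.sum_congr rfl (fun k _ => ?_)
    have e1 : ((j + k : ℕ) : ℝ) + g - 1 = ((j + k : ℕ) : ℝ) + (g - 1) := by ring
    rw [e1, Real.rpow_add hx0, Real.rpow_natCast, pow_add]
    ring
  rw [intervalIntegral.integral_congr_ae (g := fun x => ∑ j ∈ range (n + 1),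
    ∑ k ∈ range (n + 1), c j * c k * x ^ (((j + k : ℕ) : ℝ) + g - 1))
    (Filter.Eventually.of_forall e)]
  rw [intervalIntegral.integral_finsetSum (fun j _ => ?_)]
  · unfold cau
    refine Finset.sum_congr rfl (fun j _ => ?_)
    rw [intervalIntegral.integral_finsetSum (fun k _ => ?_)]
    · refine Finset.sum_congr rfl (fun k _ => ?_)
      rw [intervalIntegral.integral_const_mul, hval]
      push_cast
      ring
    · exact (hii _).const_mul _
  · have := IntervalIntegrable.sum (μ := volume) (a := 0) (b := 1) (range (n + 1))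
      (f := fun k x => c j * c k * x ^ (((j + k : ℕ) : ℝ) + g - 1))
      (fun k _ => (hii (j + k)).const_mul _)
    have e2 : (∑ k ∈ range (n + 1), fun x : ℝ => c j * c k * x ^ (((j + k : ℕ) : ℝ) + g - 1)) =
        fun x : ℝ => ∑ k ∈ range (n + 1), c j * c k * x ^ (((j + k : ℕ) : ℝ) + g - 1) := by
      ext x
      rw [Finset.sum_apply]
    rw [e2] at this
    exact this

lemma cau_nonneg {g : ℝ} (hg : 0 < g) (n : ℕ) (c : ℕ → ℝ) : 0 ≤ cau g n c := by
  rw [cau_eq_integral hg]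
  exact intervalIntegral.integral_nonneg zero_le_one
    (fun x hx => mul_nonneg (Real.rpow_nonneg hx.1 _) (sq_nonneg _))

lemma cau_pos {g : ℝ} (hg : 1 ≤ g) (n : ℕ) (c : ℕ → ℝ) (h0 : c 0 ≠ 0) : 0 < cau g n c := by
  rw [cau_eq_integral (by linarith)]
  have hcont : Continuous (fun x : ℝ => ∑ k ∈ range (n + 1), c k * x ^ k) := by fun_prop
  have hz : (fun x : ℝ => ∑ k ∈ range (n + 1), c k * x ^ k) 0 ≠ 0 := by
    simp only
    rw [Finset.sum_range_succ']
    simpa using h0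
  have hev : ∀ᶠ x in 𝓝[>] (0 : ℝ), ∑ k ∈ range (n + 1), c k * x ^ k ≠ 0 :=
    nhdsWithin_le_nhds (hcont.continuousAt.eventually_ne hz)
  have hev2 : ∀ᶠ x in 𝓝[>] (0 : ℝ), x < 1 := nhdsWithin_le_nhds (eventually_lt_nhds zero_lt_one)
  obtain ⟨x, hx1, hx2, hx3⟩ := (hev.and (hev2.and self_mem_nhdsWithin)).exists
  have hx3 : (0 : ℝ) < x := hx3
  refine intervalIntegral.integral_pos zero_lt_one ?_
    (fun x hx => mul_nonneg (Real.rpow_nonneg hx.1.le _) (sq_nonneg _)) ⟨x, ⟨hx3.le, hx2.le⟩, ?_⟩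
  · apply ContinuousOn.mul
    · exact (Real.continuous_rpow_const (by linarith)).continuousOn
    · exact (hcont.pow 2).continuousOn
  · exact mul_pos (Real.rpow_pos_of_pos hx3 _) (by positivity)

/-- The key lower bound. -/
lemma form_mu {α : ℝ} (hα : 0 ≤ α) (n : ℕ) (w : ℕ → ℝ) (hw : ∑ k ∈ range (n + 1), w k = 0)
    {μ : ℝ} (hμ : 0 ≤ μ) :
    (n + 1 / 2 + α) / (2 * μ + 1) * cau (1 + 2 * α) n w ≤
      ∑ j ∈ range (n + 1), ∑ k ∈ range (n + 1),
        w j * w k * ((n : ℝ) - k) * ((k : ℝ) + 1 + α) /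
          (((k : ℝ) + 1 + α + μ) * (j + k + (1 + 2 * α))) := by
  set c : ℝ := 1 / 2 + μ with hc
  have hcpos : 0 < c := by positivity
  have hg : 0 < 1 + 2 * α := by linarith
  set A : ℝ := ∑ k ∈ range (n + 1), w k / (k + 1 + α + μ) with hA
  set B : ℝ := cau (1 + 2 * α) n (fun k => w k / (k + 1 + α + μ)) with hB
  set M : ℝ := cau (1 + 2 * α) n w with hM
  have hB0 : 0 ≤ B := cau_nonneg hg _ _
  have hM0 : 0 ≤ M := cau_nonneg hg _ _
  -- the Hardy type inequality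
  have hardy : M - c * A ^ 2 - c ^ 2 * B =
      cau (1 + 2 * α) n (fun k => (k + 1 / 2 + α) * (w k / (k + 1 + α + μ))) := by
    rw [hM, hA, hB, pow_two, Finset.sum_mul_sum]
    unfold cau
    rw [Finset.mul_sum, Finset.mul_sum, ← Finset.sum_sub_distrib, ← Finset.sum_sub_distrib]
    refine Finset.sum_congr rfl (fun j _ => ?_)
    rw [Finset.mul_sum, Finset.mul_sum, ← Finset.sum_sub_distrib, ← Finset.sum_sub_distrib]
    refine Finset.sum_congr rfl (fun k _ => ?_)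
    have h1 : (0 : ℝ) < j + 1 + α + μ := by positivity
    have h2 : (0 : ℝ) < k + 1 + α + μ := by positivity
    have h3 : (0 : ℝ) < j + k + (1 + 2 * α) := by positivity
    rw [hc]
    field_simp
    ring
  have hardy' : c * A ^ 2 + c ^ 2 * B ≤ M := by
    have := cau_nonneg hg n (fun k => ((k : ℝ) + 1 / 2 + α) * (w k / (k + 1 + α + μ)))
    linarith
  -- the identity for the form
  have ident : ∑ j ∈ range (n + 1), ∑ k ∈ range (n + 1),
        w j * w k * ((n : ℝ) - k) * ((k : ℝ) + 1 + α) /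
          (((k : ℝ) + 1 + α + μ) * (j + k + (1 + 2 * α))) =
      (n + 1 / 2 + α + μ) * M - 1 / 2 * (∑ k ∈ range (n + 1), w k) ^ 2 -
        1 / 2 * μ * (n + 1 + α + μ) * (A ^ 2 + (1 + 2 * μ) * B) := by
    have hsym : ∑ j ∈ range (n + 1), ∑ k ∈ range (n + 1),
        w j * w k * ((n : ℝ) - k) * ((k : ℝ) + 1 + α) /
          (((k : ℝ) + 1 + α + μ) * (j + k + (1 + 2 * α))) =
        ∑ j ∈ range (n + 1), ∑ k ∈ range (n + 1), 1 / 2 *
          (w j * w k * ((n : ℝ) - k) * ((k : ℝ) + 1 + α) /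
            (((k : ℝ) + 1 + α + μ) * (j + k + (1 + 2 * α))) +
          w k * w j * ((n : ℝ) - j) * ((j : ℝ) + 1 + α) /
            (((j : ℝ) + 1 + α + μ) * (k + j + (1 + 2 * α)))) := by
      have h1 : ∑ j ∈ range (n + 1), ∑ k ∈ range (n + 1),
          w k * w j * ((n : ℝ) - j) * ((j : ℝ) + 1 + α) /
            (((j : ℝ) + 1 + α + μ) * (k + j + (1 + 2 * α))) =
          ∑ j ∈ range (n + 1), ∑ k ∈ range (n + 1),
          w j * w k * ((n : ℝ) - k) * ((k : ℝ) + 1 + α) /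
            (((k : ℝ) + 1 + α + μ) * (j + k + (1 + 2 * α))) :=
        Finset.sum_comm
      simp only [← Finset.mul_sum, Finset.sum_add_distrib]
      rw [h1]
      ring
    rw [hsym, hM, hA, hB, pow_two, pow_two, Finset.sum_mul_sum, Finset.sum_mul_sum]
    unfold cau
    simp only [Finset.mul_sum, ← Finset.sum_sub_distrib, ← Finset.sum_add_distrib]
    refine Finset.sum_congr rfl (fun j _ => ?_)
    refine Finset.sum_congr rfl (fun k _ => ?_)
    have h1 : (0 : ℝ) < j + 1 + α + μ := by positivity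
    have h2 : (0 : ℝ) < k + 1 + α + μ := by positivity
    have h3 : (0 : ℝ) < j + k + (1 + 2 * α) := by positivity
    have h5 : (k : ℝ) + j + (1 + 2 * α) = j + k + (1 + 2 * α) := by ring
    rw [h5]
    field_simp
    ring
  rw [ident, hw]
  have h1 : A ^ 2 + (1 + 2 * μ) * B ≤ 2 / c * M := by
    have h2 : A ^ 2 + (1 + 2 * μ) * B ≤ 2 / c * (c * A ^ 2 + c ^ 2 * B) := by
      have : 2 / c * (c * A ^ 2 + c ^ 2 * B) = 2 * A ^ 2 + 2 * c * B := by field_simp
      rw [this, hc]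
      nlinarith [sq_nonneg A]
    exact h2.trans (mul_le_mul_of_nonneg_left hardy' (by positivity))
  have h2 : 1 / 2 * μ * (n + 1 + α + μ) * (A ^ 2 + (1 + 2 * μ) * B) ≤
      1 / 2 * μ * (n + 1 + α + μ) * (2 / c * M) :=
    mul_le_mul_of_nonneg_left h1 (by positivity)
  have h3 : (n + 1 / 2 + α) / (2 * μ + 1) * M =
      (n + 1 / 2 + α + μ) * M - 1 / 2 * (0 : ℝ) ^ 2 -
        1 / 2 * μ * (n + 1 + α + μ) * (2 / c * M) := by
    rw [hc]
    have : (2 * μ + 1) ≠ 0 := by positivity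
    have h' : (1 / 2 + μ) ≠ 0 := by positivity
    field_simp
    ring
  linarith

lemma form_zero {α : ℝ} (hα : 0 ≤ α) (n : ℕ) (w : ℕ → ℝ) (hw : ∑ k ∈ range (n + 1), w k = 0) :
    ∑ j ∈ range (n + 1), ∑ k ∈ range (n + 1), w j * w k * ((n : ℝ) - k) / (j + k + (1 + 2 * α)) =
      (n + 1 / 2 + α) * cau (1 + 2 * α) n w := by
  have hsym : ∑ j ∈ range (n + 1), ∑ k ∈ range (n + 1),
      w j * w k * ((n : ℝ) - k) / ((j : ℝ) + k + (1 + 2 * α)) =
      ∑ j ∈ range (n + 1), ∑ k ∈ range (n + 1), 1 / 2 *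
        (w j * w k * ((n : ℝ) - k) / ((j : ℝ) + k + (1 + 2 * α)) +
          w k * w j * ((n : ℝ) - j) / ((k : ℝ) + j + (1 + 2 * α))) := by
    have h1 : ∑ j ∈ range (n + 1), ∑ k ∈ range (n + 1),
        w k * w j * ((n : ℝ) - j) / ((k : ℝ) + j + (1 + 2 * α)) =
        ∑ j ∈ range (n + 1), ∑ k ∈ range (n + 1),
        w j * w k * ((n : ℝ) - k) / ((j : ℝ) + k + (1 + 2 * α)) := Finset.sum_comm
    simp only [← Finset.mul_sum, Finset.sum_add_distrib]
    rw [h1]
    ring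
  have : (n + 1 / 2 + α) * cau (1 + 2 * α) n w = (n + 1 / 2 + α) * cau (1 + 2 * α) n w -
      1 / 2 * (∑ k ∈ range (n + 1), w k) ^ 2 := by rw [hw]; ring
  rw [this, hsym, pow_two, Finset.sum_mul_sum]
  unfold cau
  simp only [Finset.mul_sum, ← Finset.sum_sub_distrib]
  refine Finset.sum_congr rfl (fun j _ => ?_)
  refine Finset.sum_congr rfl (fun k _ => ?_)
  have h3 : (0 : ℝ) < j + k + (1 + 2 * α) := by positivity
  have h5 : (k : ℝ) + j + (1 + 2 * α) = j + k + (1 + 2 * α) := by ring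
  rw [h5]
  field_simp
  ring

lemma form_one {α : ℝ} (hα : 0 ≤ α) (n : ℕ) (w : ℕ → ℝ) (hw : ∑ k ∈ range (n + 1), w k = 0) :
    (n : ℝ) / 2 * cau (1 + 2 * α) n w ≤
    ∑ j ∈ range (n + 1), ∑ k ∈ range (n + 1),
      w j * w k * ((n : ℝ) - k) / (j + k + (1 + 2 * α)) * ((k : ℝ) + 1 + α) := by
  have hg : 0 < 1 + 2 * α := by linarith
  have hsym : ∑ j ∈ range (n + 1), ∑ k ∈ range (n + 1),
      w j * w k * ((n : ℝ) - k) / ((j : ℝ) + k + (1 + 2 * α)) * ((k : ℝ) + 1 + α) =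
      ∑ j ∈ range (n + 1), ∑ k ∈ range (n + 1), 1 / 2 *
        (w j * w k * ((n : ℝ) - k) / ((j : ℝ) + k + (1 + 2 * α)) * ((k : ℝ) + 1 + α) +
          w k * w j * ((n : ℝ) - j) / ((k : ℝ) + j + (1 + 2 * α)) * ((j : ℝ) + 1 + α)) := by
    have h1 : ∑ j ∈ range (n + 1), ∑ k ∈ range (n + 1),
        w k * w j * ((n : ℝ) - j) / ((k : ℝ) + j + (1 + 2 * α)) * ((j : ℝ) + 1 + α) =
        ∑ j ∈ range (n + 1), ∑ k ∈ range (n + 1),
        w j * w k * ((n : ℝ) - k) / ((j : ℝ) + k + (1 + 2 * α)) * ((k : ℝ) + 1 + α) :=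
      Finset.sum_comm
    simp only [← Finset.mul_sum, Finset.sum_add_distrib]
    rw [h1]
    ring
  have h2 := cau_nonneg hg n (fun k => ((k : ℝ) + 1 / 2 + α) * w k)
  have hM0 := cau_nonneg hg n w
  -- `(n-k)(k+1+α) = N/2 + (N - 1/2) U - U²` with `U = k + 1/2 + α`, `N = n + 1/2 + α`
  have h3 : ∑ j ∈ range (n + 1), ∑ k ∈ range (n + 1), 1 / 2 *
        (w j * w k * ((n : ℝ) - k) / ((j : ℝ) + k + (1 + 2 * α)) * ((k : ℝ) + 1 + α) +
          w k * w j * ((n : ℝ) - j) / ((k : ℝ) + j + (1 + 2 * α)) * ((j : ℝ) + 1 + α)) =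
      ((n : ℝ) + 1 / 2 + α) / 2 * cau (1 + 2 * α) n w +
        cau (1 + 2 * α) n (fun k => ((k : ℝ) + 1 / 2 + α) * w k) +
        (∑ j ∈ range (n + 1), w j) * ∑ k ∈ range (n + 1),
          (((n : ℝ) + α) / 2 - ((k : ℝ) + 1 / 2 + α)) * w k := by
    have h4 : (∑ j ∈ range (n + 1), w j) * ∑ k ∈ range (n + 1),
          (((n : ℝ) + α) / 2 - ((k : ℝ) + 1 / 2 + α)) * w k =
        ∑ j ∈ range (n + 1), ∑ k ∈ range (n + 1),
          (w j * w k * (((n : ℝ) + α) / 2 - ((j : ℝ) + 1 / 2 + α) / 2 -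
            ((k : ℝ) + 1 / 2 + α) / 2)) := by
      have h5 : ∑ j ∈ range (n + 1), ∑ k ∈ range (n + 1),
          (w j * w k * (((n : ℝ) + α) / 2 - ((j : ℝ) + 1 / 2 + α) / 2 -
            ((k : ℝ) + 1 / 2 + α) / 2)) =
          1 / 2 * (∑ j ∈ range (n + 1), ∑ k ∈ range (n + 1),
            w j * ((((n : ℝ) + α) / 2 - ((k : ℝ) + 1 / 2 + α)) * w k)) +
          1 / 2 * (∑ j ∈ range (n + 1), ∑ k ∈ range (n + 1),
            w k * ((((n : ℝ) + α) / 2 - ((j : ℝ) + 1 / 2 + α)) * w j)) := by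
        rw [Finset.mul_sum, Finset.mul_sum, ← Finset.sum_add_distrib]
        refine Finset.sum_congr rfl (fun j _ => ?_)
        rw [Finset.mul_sum, Finset.mul_sum, ← Finset.sum_add_distrib]
        refine Finset.sum_congr rfl (fun k _ => ?_)
        ring
      have h6 : ∑ j ∈ range (n + 1), ∑ k ∈ range (n + 1),
            w k * ((((n : ℝ) + α) / 2 - ((j : ℝ) + 1 / 2 + α)) * w j) =
          ∑ j ∈ range (n + 1), ∑ k ∈ range (n + 1),
            w j * ((((n : ℝ) + α) / 2 - ((k : ℝ) + 1 / 2 + α)) * w k) := Finset.sum_comm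
      rw [h5, h6, Finset.sum_mul_sum]
      ring
    rw [h4]
    unfold cau
    simp only [Finset.mul_sum, ← Finset.sum_add_distrib]
    refine Finset.sum_congr rfl (fun j _ => ?_)
    refine Finset.sum_congr rfl (fun k _ => ?_)
    have h3 : (0 : ℝ) < j + k + (1 + 2 * α) := by positivity
    have h5 : (k : ℝ) + j + (1 + 2 * α) = j + k + (1 + 2 * α) := by ring
    rw [h5]
    field_simp
    ring
  rw [hsym, h3, hw, zero_mul, add_zero]
  nlinarith

/-- The energy form is positive, for every exponent in `[0,1]`. -/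
lemma form_rpow_pos {α : ℝ} (hα : 0 ≤ α) {n : ℕ} (hn : 1 ≤ n) (w : ℕ → ℝ)
    (hw : ∑ k ∈ range (n + 1), w k = 0)
    (hM : 0 < cau (1 + 2 * α) n w) {σ : ℝ} (h0 : 0 ≤ σ) (h1 : σ ≤ 1) :
    0 < ∑ j ∈ range (n + 1), ∑ k ∈ range (n + 1),
        w j * w k * ((n : ℝ) - k) / (j + k + (1 + 2 * α)) * ((k : ℝ) + 1 + α) ^ σ := by
  have hn0 : (0 : ℝ) < n := by exact_mod_cast hn
  rcases eq_or_lt_of_le h0 with h | h0
  · subst h
    simp only [Real.rpow_zero, mul_one]
    rw [form_zero hα n w hw]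
    positivity
  rcases eq_or_lt_of_le h1 with h | h1
  · subst h
    simp only [Real.rpow_one]
    refine lt_of_lt_of_le ?_ (form_one hα n w hw)
    positivity
  · obtain ⟨m, hm⟩ := Real.exists_measure_rpow_eq_integral_rpowIntegrand₀₁ ⟨h0, h1⟩
    have hint : ∀ k : ℕ, IntegrableOn (fun t => Real.rpowIntegrand₀₁ σ t ((k : ℝ) + 1 + α))
        (Set.Ioi 0) m := fun k => (hm _ (by simp; positivity)).1
    have hval : ∀ k : ℕ, ((k : ℝ) + 1 + α) ^ σ =
        ∫ t in Set.Ioi 0, Real.rpowIntegrand₀₁ σ t ((k : ℝ) + 1 + α) ∂m :=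
      fun k => (hm _ (by simp; positivity)).2
    have hone : (1 : ℝ) = ∫ t in Set.Ioi 0, Real.rpowIntegrand₀₁ σ t 1 ∂m := by
      have := (hm 1 (by simp)).2
      rwa [Real.one_rpow] at this
    have hone_int : IntegrableOn (fun t => Real.rpowIntegrand₀₁ σ t 1) (Set.Ioi 0) m :=
      (hm 1 (by simp)).1
    have hform : ∑ j ∈ range (n + 1), ∑ k ∈ range (n + 1),
        w j * w k * ((n : ℝ) - k) / (j + k + (1 + 2 * α)) * ((k : ℝ) + 1 + α) ^ σ =
        ∫ t in Set.Ioi 0, ∑ j ∈ range (n + 1), ∑ k ∈ range (n + 1),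
          w j * w k * ((n : ℝ) - k) / (j + k + (1 + 2 * α)) *
            Real.rpowIntegrand₀₁ σ t ((k : ℝ) + 1 + α) ∂m := by
      rw [integral_finsetSum _ (fun j _ => ?_)]
      · refine Finset.sum_congr rfl (fun j _ => ?_)
        rw [integral_finsetSum _ (fun k _ => ?_)]
        · refine Finset.sum_congr rfl (fun k _ => ?_)
          rw [integral_const_mul, ← hval k]
        · exact (hint k).const_mul _
      · exact integrable_finsetSum _ (fun k _ => (hint k).const_mul _)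
    have hlow : ∫ t in Set.Ioi 0, ((n + 1 / 2 + α) / 2 * cau (1 + 2 * α) n w) *
          Real.rpowIntegrand₀₁ σ t 1 ∂m ≤
        ∫ t in Set.Ioi 0, ∑ j ∈ range (n + 1), ∑ k ∈ range (n + 1),
          w j * w k * ((n : ℝ) - k) / (j + k + (1 + 2 * α)) *
            Real.rpowIntegrand₀₁ σ t ((k : ℝ) + 1 + α) ∂m := by
      refine setIntegral_mono_on (hone_int.const_mul _)
        (integrable_finsetSum _ (fun j _ => integrable_finsetSum _ (fun k _ => (hint k).const_mul _)))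
        measurableSet_Ioi (fun t ht => ?_)
      have ht' : (0 : ℝ) < t := ht
      have h2 := form_mu hα n w hw ht'.le
      have h3 : (n + 1 / 2 + α) / 2 * cau (1 + 2 * α) n w * Real.rpowIntegrand₀₁ σ t 1 ≤
          t ^ (σ - 1) * ((n + 1 / 2 + α) / (2 * t + 1) * cau (1 + 2 * α) n w) := by
        rw [Real.rpowIntegrand₀₁_eq_pow_div ⟨h0, h1⟩ ht'.le zero_le_one]
        have h4 : (n + 1 / 2 + α : ℝ) / 2 * (1 / (t + 1)) ≤ (n + 1 / 2 + α) / (2 * t + 1) := by
          rw [div_mul_div_comm, mul_one]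
          apply div_le_div_of_nonneg_left (by positivity) (by positivity)
          linarith
        have h5 : 0 ≤ t ^ (σ - 1) * cau (1 + 2 * α) n w := by positivity
        calc _ = t ^ (σ - 1) * cau (1 + 2 * α) n w * ((n + 1 / 2 + α : ℝ) / 2 * (1 / (t + 1))) := by
              ring
          _ ≤ t ^ (σ - 1) * cau (1 + 2 * α) n w * ((n + 1 / 2 + α) / (2 * t + 1)) :=
            mul_le_mul_of_nonneg_left h4 h5
          _ = _ := by ring
      refine h3.trans ?_
      have h6 : ∑ j ∈ range (n + 1), ∑ k ∈ range (n + 1),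
          w j * w k * ((n : ℝ) - k) / (j + k + (1 + 2 * α)) *
            Real.rpowIntegrand₀₁ σ t ((k : ℝ) + 1 + α) =
          t ^ (σ - 1) * ∑ j ∈ range (n + 1), ∑ k ∈ range (n + 1),
        w j * w k * ((n : ℝ) - k) * ((k : ℝ) + 1 + α) /
          (((k : ℝ) + 1 + α + t) * (j + k + (1 + 2 * α))) := by
        rw [Finset.mul_sum]
        refine Finset.sum_congr rfl (fun j _ => ?_)
        rw [Finset.mul_sum]
        refine Finset.sum_congr rfl (fun k _ => ?_)
        rw [Real.rpowIntegrand₀₁_eq_pow_div ⟨h0, h1⟩ ht'.le (by positivity)]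
        have h7 : (0 : ℝ) < j + k + (1 + 2 * α) := by positivity
        have h8 : (0 : ℝ) < t + (k + 1 + α) := by positivity
        have h9 : (k : ℝ) + 1 + α + t = t + (k + 1 + α) := by ring
        rw [h9]
        field_simp
      rw [h6]
      exact mul_le_mul_of_nonneg_left h2 (by positivity)
    rw [integral_const_mul, ← hone, mul_one] at hlow
    rw [hform]
    refine lt_of_lt_of_le ?_ hlow
    positivity

/-- **No double zero.** If `k (k+α)^s w_k = -X (n+1-k) w_{k-1}` with `1 ≤ s ≤ 2`, `α ≥ 0`,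
`X > 0`, `w_0 ≠ 0`, the sums `∑ w_k` and `∑ k w_k` do not both vanish. -/
theorem no_double {α : ℝ} (hα : 0 ≤ α) {n : ℕ} (hn : 1 ≤ n) (w : ℕ → ℝ) {s X : ℝ} (hs1 : 1 ≤ s)
    (hs2 : s ≤ 2) (hX : 0 < X) (hw0 : w 0 ≠ 0)
    (hrec : ∀ k, k < n → ((k : ℝ) + 1) * ((k : ℝ) + 1 + α) ^ s * w (k + 1) =
      -X * ((n : ℝ) - k) * w k)
    (h0 : ∑ k ∈ range (n + 1), w k = 0) (h1 : ∑ k ∈ range (n + 1), (k : ℝ) * w k = 0) : False := by
  have hpos := form_rpow_pos hα hn w h0 (cau_pos (by linarith) n w hw0) (σ := 2 - s) (by linarith)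
    (by linarith)
  have h1' : ∑ k ∈ range (n + 1), ((k : ℝ) + α) * w k = 0 := by
    have : ∑ k ∈ range (n + 1), ((k : ℝ) + α) * w k =
        ∑ k ∈ range (n + 1), (k : ℝ) * w k + α * ∑ k ∈ range (n + 1), w k := by
      rw [Finset.mul_sum, ← Finset.sum_add_distrib]
      exact Finset.sum_congr rfl (fun k _ => by ring)
    rw [this, h0, h1]
    ring
  -- the skew identity
  have hS : 0 ≤ ∑ j ∈ range (n + 1), ∑ k ∈ range (n + 1),
      w j * w k * ((k : ℝ) * (k + α) ^ 2 / (j + k + 2 * α)) := by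
    have hsym : ∑ j ∈ range (n + 1), ∑ k ∈ range (n + 1),
        w j * w k * ((k : ℝ) * (k + α) ^ 2 / (j + k + 2 * α)) =
        ∑ j ∈ range (n + 1), ∑ k ∈ range (n + 1), 1 / 2 *
          (w j * w k * ((k : ℝ) * (k + α) ^ 2 / (j + k + 2 * α)) +
            w k * w j * ((j : ℝ) * (j + α) ^ 2 / (k + j + 2 * α))) := by
      have h2 : ∑ j ∈ range (n + 1), ∑ k ∈ range (n + 1),
          w k * w j * ((j : ℝ) * (j + α) ^ 2 / (k + j + 2 * α)) =
          ∑ j ∈ range (n + 1), ∑ k ∈ range (n + 1),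
          w j * w k * ((k : ℝ) * (k + α) ^ 2 / (j + k + 2 * α)) :=
        Finset.sum_comm
      simp only [← Finset.mul_sum, Finset.sum_add_distrib]
      rw [h2]
      ring
    have h3 : ∑ j ∈ range (n + 1), ∑ k ∈ range (n + 1), 1 / 2 *
          (w j * w k * ((k : ℝ) * (k + α) ^ 2 / (j + k + 2 * α)) +
            w k * w j * ((j : ℝ) * (j + α) ^ 2 / (k + j + 2 * α))) =
        1 / 2 * ((∑ j ∈ range (n + 1), w j) *
          ∑ k ∈ range (n + 1), (((k : ℝ) + α) ^ 2 - 2 * α * (k + α)) * w k) +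
        1 / 2 * ((∑ j ∈ range (n + 1), ((j : ℝ) + α) ^ 2 * w j) * ∑ k ∈ range (n + 1), w k) -
        1 / 2 * ((∑ j ∈ range (n + 1), ((j : ℝ) + α) * w j) *
          ∑ k ∈ range (n + 1), ((k : ℝ) + α) * w k) +
        1 / 2 * α * ((∑ j ∈ range (n + 1), w j) * (∑ k ∈ range (n + 1), ((k : ℝ) + α) * w k) -
          (∑ j ∈ range (n + 1), ((j : ℝ) + α) * w j) * (∑ k ∈ range (n + 1), w k)) +
        α * cau (2 * α) n (fun k => ((k : ℝ) + α) * w k) := by
      rw [Finset.sum_mul_sum, Finset.sum_mul_sum, Finset.sum_mul_sum, Finset.sum_mul_sum,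
        Finset.sum_mul_sum]
      unfold cau
      simp only [Finset.mul_sum, ← Finset.sum_sub_distrib, ← Finset.sum_add_distrib]
      refine Finset.sum_congr rfl (fun j _ => ?_)
      refine Finset.sum_congr rfl (fun k _ => ?_)
      have h6 : (k : ℝ) + j + 2 * α = j + k + 2 * α := by ring
      rw [h6]
      by_cases hjk : (j : ℝ) + k + 2 * α = 0
      · have h4 : (0 : ℝ) ≤ j := Nat.cast_nonneg _
        have h5 : (0 : ℝ) ≤ k := Nat.cast_nonneg _
        have hj : (j : ℝ) = 0 := by linarith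
        have hk : (k : ℝ) = 0 := by linarith
        have ha : α = 0 := by linarith
        rw [hj, hk, ha]
        simp
      · field_simp
        ring
    rw [hsym, h3, h0, h1']
    have h4 : 0 ≤ α * cau (2 * α) n (fun k => ((k : ℝ) + α) * w k) := by
      rcases hα.eq_or_lt with h | h
      · rw [← h, zero_mul]
      · exact mul_nonneg hα (cau_nonneg (by linarith) _ _)
    linarith
  -- lowering
  have hlow : ∀ j ∈ range (n + 1), ∑ k ∈ range (n + 1),
      w j * w k * ((k : ℝ) * (k + α) ^ 2 / (j + k + 2 * α)) =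
      -X * ∑ k ∈ range (n + 1), w j * w k * ((n : ℝ) - k) / (j + k + (1 + 2 * α)) *
        ((k : ℝ) + 1 + α) ^ (2 - s) := by
    intro j _
    rw [Finset.sum_range_succ', Finset.sum_range_succ, mul_add, Finset.mul_sum]
    simp only [Nat.cast_zero, zero_div, mul_zero, add_zero, sub_self, zero_mul]
    refine Finset.sum_congr rfl (fun k hk => ?_)
    have hk' : k < n := by simpa using hk
    have h2 := hrec k hk'
    have hk1 : (0 : ℝ) < (k : ℝ) + 1 + α := by positivity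
    have h3 : ((k : ℝ) + 1 + α) ^ (2 : ℕ) =
        ((k : ℝ) + 1 + α) ^ s * ((k : ℝ) + 1 + α) ^ (2 - s) := by
      rw [← Real.rpow_add hk1, ← Real.rpow_natCast]
      congr 1
      push_cast
      ring
    push_cast
    rw [h3]
    have h4 : (j : ℝ) + (k + 1) + 2 * α = j + k + (1 + 2 * α) := by ring
    rw [h4]
    calc w j * w (k + 1) * (((k : ℝ) + 1) * (((k : ℝ) + 1 + α) ^ s *
          ((k : ℝ) + 1 + α) ^ (2 - s)) / (j + k + (1 + 2 * α))) =
        w j * (((k : ℝ) + 1) * ((k : ℝ) + 1 + α) ^ s * w (k + 1)) *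
          ((k : ℝ) + 1 + α) ^ (2 - s) / (j + k + (1 + 2 * α)) := by
          ring
      _ = _ := by rw [h2]; ring
  rw [Finset.sum_congr rfl hlow, ← Finset.mul_sum] at hS
  have := mul_pos hX hpos
  linarith

end Pool.Agent.H62LR
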