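import Mathlib
import Pool.Agent.H62LR.Basic

open Polynomial Finset Filter Topology

namespace Pool.Agent.H62LR

/-- lower bound for a polynomial with real zeros -/
lemma PF.lower {n : ℕ} {a : ℕ → ℝ} (ha : PF n a) {z : ℂ} (hz : 0 < z.im) :
    a n * z.im ^ n ≤ ‖ev n a z‖ := by
  obtain ⟨m, hcard, hpos, hprod⟩ := ha.exists_roots
  have h1 : ∀ m : Multiset ℝ, (∀ ρ ∈ m, 0 < ρ) →
      m.prod * z.im ^ (Multiset.card m) ≤
        ‖aeval z ((m.map (fun ρ => (1 : ℝ[X]) + C ρ * X)).prod)‖ := by
    intro m
    induction m using Multiset.induction_on with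
    | empty => intro _; simp
    | cons ρ m ih =>
      intro h
      have h2 := ih (fun x hx => h x (Multiset.mem_cons_of_mem hx))
      have hρ := h ρ (Multiset.mem_cons_self _ _)
      rw [Multiset.prod_cons, Multiset.card_cons, Multiset.map_cons, Multiset.prod_cons, map_mul,
        norm_mul, pow_succ]
      have h3 : ρ * z.im ≤ ‖aeval z ((1 : ℝ[X]) + C ρ * X)‖ := by
        have : aeval z ((1 : ℝ[X]) + C ρ * X) = 1 + ρ * z := by simp
        rw [this]
        refine le_trans (le_of_eq ?_) (Complex.abs_im_le_norm _)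
        simp
        rw [abs_of_pos hρ, abs_of_pos hz]
      have h4 : 0 ≤ m.prod * z.im ^ Multiset.card m := by
        refine mul_nonneg (Multiset.prod_nonneg (fun x hx => ?_)) (by positivity)
        exact (h x (Multiset.mem_cons_of_mem hx)).le
      calc ρ * m.prod * (z.im ^ Multiset.card m * z.im) =
          ρ * z.im * (m.prod * z.im ^ Multiset.card m) := by ring
        _ ≤ _ := mul_le_mul h3 h2 h4 (norm_nonneg _)
  have h2 : a n = a 0 * m.prod := by
    have h3 : ∀ m : Multiset ℝ, (∀ ρ ∈ m, 0 < ρ) →
        ((m.map (fun ρ => (1 : ℝ[X]) + C ρ * X)).prod).coeff (Multiset.card m) = m.prod ∧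
        ((m.map (fun ρ => (1 : ℝ[X]) + C ρ * X)).prod).natDegree ≤ Multiset.card m := by
      intro m
      induction m using Multiset.induction_on with
      | empty => intro _; simp
      | cons ρ m ih =>
        intro h
        obtain ⟨h4, h5⟩ := ih (fun x hx => h x (Multiset.mem_cons_of_mem hx))
        rw [Multiset.map_cons, Multiset.prod_cons, Multiset.card_cons, Multiset.prod_cons]
        constructor
        · rw [add_mul, one_mul, coeff_add, mul_assoc, coeff_C_mul, coeff_X_mul, h4,
            coeff_eq_zero_of_natDegree_lt (by omega), zero_add]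
        · refine natDegree_mul_le.trans ?_
          have : ((1 : ℝ[X]) + C ρ * X).natDegree ≤ 1 := by
            refine (natDegree_add_le _ _).trans ?_
            rw [natDegree_one]
            exact max_le (Nat.zero_le _) ((natDegree_C_mul_le _ _).trans natDegree_X_le)
          omega
    have h4 := congrArg (fun q => q.coeff n) hprod
    simp only [coeff_C_mul] at h4
    rw [coeff_poly, if_pos le_rfl] at h4
    rw [h4]
    congr 1
    have := (h3 m hpos).1
    rwa [hcard] at this
  have h3 : ev n a z = (a 0 : ℂ) * aeval z ((m.map (fun ρ => (1 : ℝ[X]) + C ρ * X)).prod) := by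
    rw [← aeval_poly, hprod, map_mul, aeval_C]
    rfl
  have ha0 := ha.1 0 (Nat.zero_le _)
  rw [h3, norm_mul, h2, mul_assoc]
  have h4 : ‖(a 0 : ℂ)‖ = a 0 := by
    rw [Complex.norm_real, Real.norm_of_nonneg ha0.le]
  rw [h4]
  refine mul_le_mul_of_nonneg_left ?_ ha0.le
  have := h1 m hpos
  rwa [hcard] at this

/-- `n` distinct real zeros give `PF`. -/
lemma pf_of_roots {n : ℕ} {a : ℕ → ℝ} (ha : ∀ k ≤ n, 0 < a k) (R : Finset ℝ) (hR : R.card = n)
    (h : ∀ x ∈ R, (poly n a).eval x = 0) : PF n a := by
  refine ⟨ha, fun z hz h0 => ?_⟩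
  set P : ℂ[X] := (poly n a).map (algebraMap ℝ ℂ) with hP
  have hdeg : P.natDegree = n := by
    rw [hP, natDegree_map, natDegree_poly (ha n le_rfl).ne']
  have hP0 : P ≠ 0 := by
    intro h1
    have := congrArg (fun q => q.coeff 0) h1
    simp only [hP, coeff_map, coeff_poly, if_pos (Nat.zero_le n), coeff_zero] at this
    have h2 := ha 0 (Nat.zero_le _)
    simp at this
    linarith
  have hsub : (insert z (R.image (fun x : ℝ => (x : ℂ)))) ⊆ P.roots.toFinset := by
    intro w hw
    rw [Multiset.mem_toFinset, mem_roots hP0, IsRoot.def]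
    rcases Finset.mem_insert.1 hw with rfl | hw
    · rw [hP, eval_map_algebraMap, aeval_poly]
      exact h0
    · obtain ⟨x, hx, rfl⟩ := Finset.mem_image.1 hw
      have h1 := h x hx
      rw [hP, eval_map_algebraMap]
      have : aeval (x : ℂ) (poly n a) = (((poly n a).eval x : ℝ) : ℂ) := by
        have := Polynomial.aeval_algebraMap_apply_eq_algebraMap_eval (A := ℂ) x (poly n a)
        simpa using this
      rw [this, h1]
      simp
  have hz' : z ∉ R.image (fun x : ℝ => (x : ℂ)) := by
    intro hmem
    obtain ⟨x, _, rfl⟩ := Finset.mem_image.1 hmem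
    simp at hz
  have hcard := Finset.card_le_card hsub
  rw [Finset.card_insert_of_notMem hz', Finset.card_image_of_injective _ Complex.ofReal_injective,
    hR] at hcard
  have := (Multiset.toFinset_card_le P.roots).trans (card_roots' P)
  omega

lemma eval_poly (n : ℕ) (a : ℕ → ℝ) (x : ℝ) :
    (poly n a).eval x = ∑ k ∈ range (n + 1), a k * x ^ k := by
  unfold poly
  rw [eval_finsetSum]
  simp

/-- sign change at a simple root -/
lemma sign_change {p : ℝ[X]} {x : ℝ} (h0 : p.eval x = 0) (h1 : p.derivative.eval x ≠ 0) :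
    ∀ᶠ δ in 𝓝[>] (0 : ℝ), p.eval (x - δ) * p.eval (x + δ) < 0 := by
  obtain ⟨q, hq⟩ := dvd_iff_isRoot.2 (show p.IsRoot x from h0)
  have hq0 : q.eval x ≠ 0 := by
    intro h
    apply h1
    rw [hq]
    simp [h]
  have hcont : Tendsto (fun δ : ℝ => q.eval (x - δ) * q.eval (x + δ)) (𝓝 0)
      (𝓝 (q.eval x * q.eval x)) := by
    have hc : Continuous (fun δ : ℝ => q.eval (x - δ) * q.eval (x + δ)) := by
      fun_prop
    have := hc.tendsto 0
    simpa using this
  have hpos : 0 < q.eval x * q.eval x := mul_self_pos.2 hq0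
  have h2 : ∀ᶠ δ in 𝓝[>] (0 : ℝ), 0 < q.eval (x - δ) * q.eval (x + δ) :=
    (hcont.mono_left nhdsWithin_le_nhds).eventually (eventually_gt_nhds hpos)
  filter_upwards [h2, self_mem_nhdsWithin] with δ hδ hδ0
  have hδ0' : (0 : ℝ) < δ := hδ0
  rw [hq]
  simp only [eval_mul, eval_sub, eval_X, eval_C]
  have : (x - δ - x) * q.eval (x - δ) * ((x + δ - x) * q.eval (x + δ)) =
      -(δ ^ 2 * (q.eval (x - δ) * q.eval (x + δ))) := by ring
  rw [this]
  have := mul_pos (pow_pos hδ0' 2) hδ
  linarith

/-- **Homotopy principle.** -/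
theorem homotopy {n : ℕ} (a : ℝ → ℕ → ℝ) {c d : ℝ}
    (hcont : ∀ k ≤ n, ContinuousOn (fun s => a s k) (Set.Icc c d))
    (hpos : ∀ s ∈ Set.Icc c d, ∀ k ≤ n, 0 < a s k) (h0 : PF n (a c))
    (hsimple : ∀ s ∈ Set.Icc c d, ∀ x : ℝ, x < 0 → ∑ k ∈ range (n + 1), a s k * x ^ k = 0 →
      ∑ k ∈ range (n + 1), (k : ℝ) * (a s k * x ^ k) = 0 → False) :
    ∀ s ∈ Set.Icc c d, PF n (a s) := by
  set S : Set ℝ := {s | s ∈ Set.Icc c d → PF n (a s)} with hS
  suffices h : Set.Icc c d ⊆ S from fun s hs => h hs hs
  refine IsClosed.Icc_subset_of_forall_mem_nhdsWithin ?_ (fun _ => h0) ?_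
  · -- closed
    have hcz : ∀ z : ℂ, ContinuousOn (fun s => ‖ev n (a s) z‖ - a s n * z.im ^ n)
        (Set.Icc c d) := by
      intro z
      refine ContinuousOn.sub (ContinuousOn.norm ?_) ((hcont n le_rfl).mul continuousOn_const)
      unfold ev
      refine continuousOn_finset_sum _ (fun k hk => ?_)
      have hk' : k ≤ n := by simpa [Nat.lt_succ_iff] using hk
      exact (Complex.continuous_ofReal.comp_continuousOn (hcont k hk')).mul continuousOn_const
    have e : S ∩ Set.Icc c d = ⋂ z : {z : ℂ // 0 < z.im},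
        (Set.Icc c d ∩ (fun s => ‖ev n (a s) z.1‖ - a s n * z.1.im ^ n) ⁻¹' (Set.Ici 0)) := by
      ext s
      simp only [Set.mem_inter_iff, Set.mem_iInter, Set.mem_preimage, Set.mem_Ici, sub_nonneg]
      constructor
      · rintro ⟨h1, h2⟩ z
        exact ⟨h2, (h1 h2).lower z.2⟩
      · intro h
        have hs := (h ⟨Complex.I, by simp⟩).1
        refine ⟨fun _ => ⟨fun k hk => hpos s hs k hk, fun z hz h1 => ?_⟩, hs⟩
        have h2 := (h ⟨z, hz⟩).2
        rw [h1, norm_zero] at h2
        have h3 := mul_pos (hpos s hs n le_rfl) (pow_pos hz n)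
        exact absurd h2 (not_le.2 h3)
    rw [e]
    exact isClosed_iInter (fun z => (hcz z.1).preimage_isClosed_of_isClosed isClosed_Icc
      isClosed_Ici)
  · rintro s0 ⟨hs0, hs0'⟩
    have hs0c : s0 ∈ Set.Icc c d := ⟨hs0'.1, hs0'.2.le⟩
    have hPF := hs0 hs0c
    set p : ℝ[X] := poly n (a s0) with hp
    have hdeg : p.natDegree = n := natDegree_poly (hPF.1 n le_rfl).ne'
    have hp0 : p ≠ 0 := by
      intro h
      have := congrArg (fun q => q.coeff 0) h
      simp only [hp, coeff_poly, if_pos (Nat.zero_le n), coeff_zero] at this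
      have h2 := hPF.1 0 (Nat.zero_le _)
      linarith
    have hcoef : ∀ k, 0 ≤ p.coeff k := by
      intro k
      rw [hp, coeff_poly]
      split_ifs with h
      · exact (hPF.1 k h).le
      · exact le_rfl
    have hneg : ∀ x, p.eval x = 0 → x < 0 := by
      intro x hx
      rcases lt_trichotomy x 0 with h | h | h
      · exact h
      · exfalso
        rw [h, ← coeff_zero_eq_eval_zero, hp, coeff_poly, if_pos (Nat.zero_le _)] at hx
        exact (hPF.1 0 (Nat.zero_le _)).ne' hx
      · exact absurd hx (Pool.Agent.H49.PowerForm.eval_pos hp0 hcoef h).ne'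
    have hder : ∀ x, p.eval x = 0 → p.derivative.eval x ≠ 0 := by
      intro x hx h1
      refine hsimple s0 hs0c x (hneg x hx) ?_ ?_
      · rw [← eval_poly]; exact hx
      · have : ∑ k ∈ range (n + 1), (k : ℝ) * (a s0 k * x ^ k) = x * p.derivative.eval x := by
          rw [hp]
          unfold poly
          rw [derivative_sum, eval_finsetSum, Finset.mul_sum]
          refine Finset.sum_congr rfl (fun k _ => ?_)
          rw [derivative_monomial, eval_monomial]
          rcases Nat.eq_zero_or_pos k with h | h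
          · subst h; simp
          · obtain ⟨j, rfl⟩ := Nat.exists_eq_succ_of_ne_zero h.ne'
            rw [Nat.succ_sub_one, pow_succ]
            ring
        rw [this, h1, mul_zero]
    have hs := Pool.Agent.H49.RR.RealRooted.splits hPF.realRooted
    have hnodup : p.roots.Nodup := by
      rw [Multiset.nodup_iff_count_le_one]
      intro x
      rw [count_roots]
      by_contra hc
      push Not at hc
      have h1 := (one_lt_rootMultiplicity_iff_isRoot hp0).1 hc
      exact hder x h1.1 h1.2
    set R : Finset ℝ := p.roots.toFinset with hR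
    have hRcard : R.card = n := by
      rw [hR, Multiset.toFinset_card_of_nodup hnodup, ← hs.natDegree_eq_card_roots, ← hp, hdeg]
    have hRroot : ∀ x ∈ R, p.eval x = 0 := by
      intro x hx
      rw [hR, Multiset.mem_toFinset, mem_roots hp0] at hx
      exact hx
    -- a common radius
    have hgap : ∀ᶠ δ in 𝓝[>] (0 : ℝ), ∀ x ∈ R, ∀ y ∈ R, x ≠ y → 2 * δ < |x - y| := by
      rw [eventually_all_finset]
      intro x _
      rw [eventually_all_finset]
      intro y _
      by_cases hxy : x = y
      · exact Eventually.of_forall (fun δ h => absurd hxy h)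
      · have h1 : 0 < |x - y| := abs_pos.2 (sub_ne_zero.2 hxy)
        have h2 : ∀ᶠ δ in 𝓝 (0 : ℝ), δ < |x - y| / 2 := eventually_lt_nhds (by positivity)
        filter_upwards [nhdsWithin_le_nhds h2] with δ hδ _
        linarith
    have hsign : ∀ᶠ δ in 𝓝[>] (0 : ℝ), ∀ x ∈ R, p.eval (x - δ) * p.eval (x + δ) < 0 := by
      rw [eventually_all_finset]
      intro x hx
      exact sign_change (hRroot x hx) (hder x (hRroot x hx))
    obtain ⟨δ, hδ1, hδ2, hδ0⟩ := (hgap.and (hsign.and self_mem_nhdsWithin)).exists
    have hδ0 : (0 : ℝ) < δ := hδ0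
    -- persistence of the sign changes
    have hevc : ∀ x : ℝ, ContinuousWithinAt (fun s => (poly n (a s)).eval x) (Set.Icc c d) s0 := by
      intro x
      simp_rw [eval_poly]
      refine ContinuousOn.continuousWithinAt ?_ hs0c
      refine continuousOn_finset_sum _ (fun k hk => ?_)
      have hk' : k ≤ n := by simpa [Nat.lt_succ_iff] using hk
      exact (hcont k hk').mul continuousOn_const
    have hpers : ∀ᶠ s in 𝓝[Set.Icc c d] s0, ∀ x ∈ R,
        (poly n (a s)).eval (x - δ) * (poly n (a s)).eval (x + δ) < 0 := by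
      rw [eventually_all_finset]
      intro x hx
      have h1 := (hevc (x - δ)).mul (hevc (x + δ))
      exact h1.eventually (eventually_lt_nhds (hδ2 x hx))
    have hmem : ∀ᶠ s in 𝓝[>] s0, s ∈ Set.Icc c d := by
      have h1 : ∀ᶠ s in 𝓝[>] s0, s < d := nhdsWithin_le_nhds (eventually_lt_nhds hs0'.2)
      filter_upwards [h1, self_mem_nhdsWithin] with s h2 h3
      have h3' : s0 < s := h3
      exact ⟨hs0'.1.trans h3'.le, h2.le⟩
    have hle : 𝓝[>] s0 ≤ 𝓝[Set.Icc c d] s0 := by
      rw [nhdsWithin, nhdsWithin, le_inf_iff]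
      refine ⟨inf_le_left, ?_⟩
      rw [le_principal_iff]
      exact hmem
    filter_upwards [hle hpers] with s hsgn hsc
    -- roots for `s`
    have hroot : ∀ x ∈ R, ∃ y, |y - x| < δ ∧ (poly n (a s)).eval y = 0 := by
      intro x hx
      have h1 := hsgn x hx
      have hc : ContinuousOn (fun y => (poly n (a s)).eval y) (Set.Icc (x - δ) (x + δ)) :=
        (poly n (a s)).continuous.continuousOn
      have hab : x - δ ≤ x + δ := by linarith
      rcases mul_neg_iff.1 h1 with ⟨h2, h3⟩ | ⟨h2, h3⟩
      · obtain ⟨y, hy, hy0⟩ := intermediate_value_Icc' hab hc ⟨h3.le, h2.le⟩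
        refine ⟨y, ?_, hy0⟩
        have hy1 : y ≠ x - δ := by
          rintro rfl
          exact absurd hy0 h2.ne'
        have hy2 : y ≠ x + δ := by
          rintro rfl
          exact absurd hy0 h3.ne
        rw [abs_lt]
        constructor
        · have := lt_of_le_of_ne hy.1 (Ne.symm hy1)
          linarith
        · have := lt_of_le_of_ne hy.2 hy2
          linarith
      · obtain ⟨y, hy, hy0⟩ := intermediate_value_Icc hab hc ⟨h2.le, h3.le⟩
        refine ⟨y, ?_, hy0⟩
        have hy1 : y ≠ x - δ := by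
          rintro rfl
          exact absurd hy0 h2.ne
        have hy2 : y ≠ x + δ := by
          rintro rfl
          exact absurd hy0 h3.ne'
        rw [abs_lt]
        constructor
        · have := lt_of_le_of_ne hy.1 (Ne.symm hy1)
          linarith
        · have := lt_of_le_of_ne hy.2 hy2
          linarith
    choose! r hr1 hr2 using hroot
    have hinj : Set.InjOn r (R : Set ℝ) := by
      intro x hx y hy hxy
      by_contra hne
      have h1 := hδ1 x hx y hy hne
      have h2 := hr1 x hx
      have h3 := hr1 y hy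
      rw [← hxy] at h3
      have h4 : |x - y| ≤ |r x - x| + |r x - y| := by
        have : x - y = -(r x - x) + (r x - y) := by ring
        rw [this]
        refine (abs_add_le _ _).trans ?_
        rw [abs_neg]
      linarith
    refine pf_of_roots (hpos s hsc) (R.image r) ?_ ?_
    · rw [Finset.card_image_of_injOn hinj, hRcard]
    · intro y hy
      obtain ⟨x, hx, rfl⟩ := Finset.mem_image.1 hy
      exact hr2 x hx

end Pool.Agent.H62LR
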