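import Mathlib
import Pool.Agent.H62LR.Basic

open Polynomial Finset

namespace Pool.Agent.H62LR

/-- no zero in the upper half plane -/
def NZ (p : ℝ[X]) : Prop := ∀ z : ℂ, 0 < z.im → aeval z p ≠ 0

lemma NZ.root_im {p : ℝ[X]} (hp : NZ p) {z : ℂ} (hz : aeval z p = 0) : z.im = 0 := by
  by_contra h
  rcases lt_or_gt_of_ne h with h1 | h1
  · refine hp ((starRingEnd ℂ) z) (by simpa using h1) ?_
    rw [aeval_conj, hz, map_zero]
  · exact hp z h1 hz

lemma im_inv_sub {z r : ℂ} (hz : 0 < z.im) (hr : r.im = 0) : (1 / (z - r)).im < 0 := by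
  rw [one_div, Complex.inv_im, Complex.sub_im, hr, sub_zero]
  have h0 : z - r ≠ 0 := by
    intro h
    have : (z - r).im = 0 := by rw [h]; simp
    rw [Complex.sub_im, hr, sub_zero] at this
    exact hz.ne' this
  exact div_neg_of_neg_of_pos (by linarith) (Complex.normSq_pos.2 h0)

lemma im_sum_nonpos {z : ℂ} (hz : 0 < z.im) (s : Multiset ℂ) (hs : ∀ r ∈ s, r.im = 0) :
    ((s.map fun r => 1 / (z - r)).sum).im ≤ 0 := by
  induction s using Multiset.induction_on with
  | empty => simp
  | cons a s ih =>
    rw [Multiset.map_cons, Multiset.sum_cons, Complex.add_im]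
    have h1 := im_inv_sub hz (hs a (Multiset.mem_cons_self _ _))
    have h2 := ih (fun r hr => hs r (Multiset.mem_cons_of_mem hr))
    linarith

lemma im_sum_neg {z : ℂ} (hz : 0 < z.im) (s : Multiset ℂ) (hs : ∀ r ∈ s, r.im = 0)
    (h0 : s ≠ 0) : ((s.map fun r => 1 / (z - r)).sum).im < 0 := by
  obtain ⟨a, ha⟩ := Multiset.exists_mem_of_ne_zero h0
  obtain ⟨t, rfl⟩ := Multiset.exists_cons_of_mem ha
  rw [Multiset.map_cons, Multiset.sum_cons, Complex.add_im]
  have h1 := im_inv_sub hz (hs a (Multiset.mem_cons_self _ _))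
  have h2 := im_sum_nonpos hz t (fun r hr => hs r (Multiset.mem_cons_of_mem hr))
  linarith

lemma NZ.mul_add_derivative {p : ℝ[X]} (hp : NZ p) (hdeg : 1 ≤ natDegree p) (c : ℝ) :
    NZ (C c * p + derivative p) := by
  intro z hz h
  set P : ℂ[X] := p.map (algebraMap ℝ ℂ) with hP
  have hev : ∀ w, P.eval w = aeval w p := by
    intro w
    rw [hP, eval_map_algebraMap]
  have hz0 : P.eval z ≠ 0 := by rw [hev]; exact hp z hz
  have hroots : ∀ r ∈ P.roots, r.im = 0 := by
    intro r hr
    have := isRoot_of_mem_roots hr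
    rw [IsRoot.def, hev] at this
    exact hp.root_im this
  have hne : P.roots ≠ 0 := by
    intro h0
    have h1 := (IsAlgClosed.splits P).natDegree_eq_card_roots
    rw [h0, Multiset.card_zero, hP, natDegree_map] at h1
    omega
  have h2 := (IsAlgClosed.splits P).eval_derivative_div_eval_of_ne_zero hz0
  have h3 := im_sum_neg hz P.roots hroots hne
  rw [← h2] at h3
  have h4 : aeval z (C c * p + derivative p) = c * P.eval z + P.derivative.eval z := by
    rw [hP, derivative_map, eval_map_algebraMap, eval_map_algebraMap]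
    simp
  rw [h4] at h
  have h5 : P.derivative.eval z / P.eval z = -c := by
    rw [div_eq_iff hz0]
    linear_combination h
  rw [h5] at h3
  simp at h3

lemma NZ.derivative {p : ℝ[X]} (hp : NZ p) (hdeg : 1 ≤ natDegree p) : NZ (derivative p) := by
  have := hp.mul_add_derivative hdeg 0
  simpa using this

lemma NZ.add_derivative {p : ℝ[X]} (hp : NZ p) (hdeg : 1 ≤ natDegree p) :
    NZ (p + Polynomial.derivative p) := by
  have := hp.mul_add_derivative hdeg 1
  simpa using this

lemma pf_iff {n : ℕ} {a : ℕ → ℝ} : PF n a ↔ (∀ k ≤ n, 0 < a k) ∧ NZ (poly n a) := by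
  unfold PF NZ
  simp only [aeval_poly]

lemma PF.zero {a : ℕ → ℝ} (h : 0 < a 0) : PF 0 a := by
  refine ⟨fun k hk => ?_, fun z _ => ?_⟩
  · obtain rfl : k = 0 := by omega
    exact h
  · unfold ev
    simp [h.ne']

lemma coeff_derivative_poly (n : ℕ) (a : ℕ → ℝ) (k : ℕ) :
    (Polynomial.derivative (poly n a)).coeff k =
      if k + 1 ≤ n then ((k : ℝ) + 1) * a (k + 1) else 0 := by
  rw [coeff_derivative, coeff_poly]
  split_ifs with h
  · ring
  · ring

/-- the Laguerre polynomials: `∑ C(n,k) x^k/k!` is real-rooted -/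
lemma pf_laguerre (n : ℕ) : PF n (fun k => (n.choose k : ℝ) * ((k.factorial : ℝ))⁻¹) := by
  have key : ∀ m : ℕ, NZ (poly n (fun k => (m.choose (n - k) : ℝ) * ((k.factorial : ℝ))⁻¹)) := by
    rcases Nat.eq_zero_or_pos n with h0 | hn
    · subst h0
      intro m z hz
      rw [aeval_poly]
      unfold ev
      simp
    intro m
    induction m with
    | zero =>
      intro z hz
      rw [aeval_poly]
      unfold ev
      rw [Finset.sum_eq_single n]
      · have hz0 : z ≠ 0 := by
          rintro rfl
          simp at hz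
        simp [hz0, Nat.factorial_ne_zero]
      · intro k hk hkn
        have : n - k ≠ 0 := by
          have := Finset.mem_range.1 hk
          omega
        obtain ⟨j, hj⟩ := Nat.exists_eq_succ_of_ne_zero this
        beta_reduce
        rw [hj, Nat.choose_zero_succ]
        simp
      · intro h
        exact absurd (Finset.mem_range.2 (Nat.lt_succ_self n)) h
    | succ m ih =>
      have hd : (poly n (fun k => (m.choose (n - k) : ℝ) * ((k.factorial : ℝ))⁻¹)).natDegree = n := by
        apply natDegree_poly
        simp [Nat.factorial_ne_zero]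
      have h1 := ih.add_derivative (by rw [hd]; exact hn)
      have e : poly n (fun k => ((m + 1).choose (n - k) : ℝ) * ((k.factorial : ℝ))⁻¹) =
          poly n (fun k => (m.choose (n - k) : ℝ) * ((k.factorial : ℝ))⁻¹) +
            Polynomial.derivative (poly n (fun k => (m.choose (n - k) : ℝ) * ((k.factorial : ℝ))⁻¹)) := by
        ext k
        rw [coeff_add, coeff_derivative_poly, coeff_poly, coeff_poly]
        by_cases hk : k + 1 ≤ n
        · rw [if_pos (by omega), if_pos (by omega), if_pos hk]
          have e1 : n - k = (n - (k + 1)) + 1 := by omega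
          rw [e1, Nat.choose_succ_succ, Nat.factorial_succ]
          push_cast
          have h2 : ((k : ℝ) + 1) ≠ 0 := by positivity
          have h3 : (k.factorial : ℝ) ≠ 0 := by exact_mod_cast k.factorial_ne_zero
          field_simp
          ring
        · rw [if_neg hk, add_zero]
          split_ifs with h2
          · have : n - k = 0 := by omega
            rw [this]
            simp
          · rfl
      rw [e]
      exact h1
  rw [pf_iff]
  refine ⟨fun k hk => ?_, ?_⟩
  · have h1 : 0 < (n.choose k : ℝ) := by exact_mod_cast Nat.choose_pos hk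
    have h2 : 0 < (k.factorial : ℝ) := by exact_mod_cast k.factorial_pos
    positivity
  · have := key n
    have e : poly n (fun k => (n.choose k : ℝ) * ((k.factorial : ℝ))⁻¹) =
        poly n (fun k => (n.choose (n - k) : ℝ) * ((k.factorial : ℝ))⁻¹) := by
      ext k
      rw [coeff_poly, coeff_poly]
      split_ifs with h
      · rw [Nat.choose_symm h]
      · rfl
    rw [e]
    exact this

/-- differentiation -/
lemma PF.derivative {n : ℕ} {a : ℕ → ℝ} (ha : PF (n + 1) a) :
    PF n (fun k => ((k : ℝ) + 1) * a (k + 1)) := by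
  rw [pf_iff] at ha ⊢
  refine ⟨fun k hk => mul_pos (by positivity) (ha.1 _ (by omega)), ?_⟩
  have hd : (poly (n + 1) a).natDegree = n + 1 := natDegree_poly (ha.1 (n + 1) le_rfl).ne'
  have h1 := ha.2.derivative (by rw [hd]; omega)
  have e : Polynomial.derivative (poly (n + 1) a) = poly n (fun k => ((k : ℝ) + 1) * a (k + 1)) := by
    ext k
    rw [coeff_derivative_poly, coeff_poly]
    by_cases h : k ≤ n
    · rw [if_pos h, if_pos (by omega)]
    · rw [if_neg h, if_neg (by omega)]
  rw [← e]
  exact h1

end Pool.Agent.H62LR
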