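import Mathlib
import Pool.Agent.H62LR.Basic
import Pool.Agent.H62LR.Compose
import Pool.Agent.H62LR.Energy
import Pool.Agent.H62LR.Homotopy
import Pool.Agent.H62LR.Laguerre

open Polynomial Finset

namespace Pool.Agent.H62LR

/-- `e` is a (positive) multiplier sequence for polynomials of degree `n`. -/
def MS (n : ℕ) (e : ℕ → ℝ) : Prop := PF n (fun k => (n.choose k : ℝ) * e k)

lemma choose_pos' {n k : ℕ} (h : k ≤ n) : 0 < (n.choose k : ℝ) := by
  exact_mod_cast Nat.choose_pos h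

lemma MS.pos {n : ℕ} {e : ℕ → ℝ} (h : MS n e) {k : ℕ} (hk : k ≤ n) : 0 < e k := by
  have := h.1 k hk
  exact (mul_pos_iff_of_pos_left (choose_pos' hk)).1 this

lemma MS.congr {n : ℕ} {e f : ℕ → ℝ} (he : MS n e) (h : ∀ k ≤ n, e k = f k) : MS n f :=
  PF.congr he (fun k hk => by beta_reduce; rw [h k hk])

lemma MS.apply {n : ℕ} {e a : ℕ → ℝ} (he : MS n e) (ha : PF n a) : PF n (fun k => e k * a k) := by
  refine (he.comp ha).congr (fun k hk => ?_)
  have := (choose_pos' hk).ne'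
  field_simp

lemma MS.mul {n : ℕ} {e f : ℕ → ℝ} (he : MS n e) (hf : MS n f) : MS n (fun k => e k * f k) := by
  refine (he.apply hf).congr (fun k hk => ?_)
  ring

lemma MS.const_mul {n : ℕ} {e : ℕ → ℝ} (he : MS n e) {c : ℝ} (hc : 0 < c) :
    MS n (fun k => c * e k) := by
  refine (PF.const_mul he hc).congr (fun k hk => ?_)
  ring

lemma MS.reverse {n : ℕ} {e : ℕ → ℝ} (he : MS n e) : MS n (fun k => e (n - k)) := by
  refine (PF.reverse he).congr (fun k hk => ?_)
  rw [Nat.choose_symm hk]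

lemma MS.one (n : ℕ) : MS n (fun _ => 1) := by
  refine ⟨fun k hk => by beta_reduce; rw [mul_one]; exact choose_pos' hk, fun z hz => ?_⟩
  have : ev n (fun k => (n.choose k : ℝ) * 1) z = (z + 1) ^ n := by
    rw [add_pow]
    unfold ev
    refine Finset.sum_congr rfl (fun k _ => ?_)
    simp
    ring
  rw [this]
  apply pow_ne_zero
  intro h
  have : (z + 1).im = 0 := by rw [h]; simp
  simp at this
  exact hz.ne' this

/-- shifting a multiplier sequence: comes from differentiation -/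
lemma MS.shift_one {n : ℕ} {e : ℕ → ℝ} (he : MS (n + 1) e) : MS n (fun k => e (k + 1)) := by
  have h1 := PF.derivative he
  refine (h1.const_mul (c := ((n : ℝ) + 1)⁻¹) (by positivity)).congr (fun k hk => ?_)
  have h2 := Nat.add_one_mul_choose_eq n k
  have h3 : ((n : ℝ) + 1) * (n.choose k : ℝ) = ((n + 1).choose (k + 1) : ℝ) * ((k : ℝ) + 1) := by
    exact_mod_cast h2
  have h4 : ((n : ℝ) + 1) ≠ 0 := by positivity
  field_simp
  linear_combination (-e (k + 1)) * h3

lemma MS.shift {n : ℕ} (ν : ℕ) {e : ℕ → ℝ} (he : MS (n + ν) e) : MS n (fun k => e (k + ν)) := by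
  induction ν generalizing n e with
  | zero => exact he
  | succ ν ih =>
    have h1 : MS (n + ν) (fun k => e (k + 1)) := MS.shift_one he
    exact (ih h1).congr (fun k _ => by beta_reduce; congr 1)

/-- no double zeros of the generalised Laguerre - Le Roy polynomials -/
lemma simple_gamma {n : ℕ} (hn : 1 ≤ n) {α s : ℝ} (hα : 0 ≤ α) (hs1 : 1 ≤ s) (hs2 : s ≤ 2) {x : ℝ}
    (hx : x < 0)
    (h0 : ∑ k ∈ range (n + 1), (n.choose k : ℝ) * Real.Gamma (k + 1 + α) ^ (-s) * x ^ k = 0)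
    (h1 : ∑ k ∈ range (n + 1), (k : ℝ) * ((n.choose k : ℝ) * Real.Gamma (k + 1 + α) ^ (-s) * x ^ k)
      = 0) : False := by
  have hΓ : ∀ k : ℕ, 0 < Real.Gamma (k + 1 + α) := fun k => Real.Gamma_pos_of_pos (by positivity)
  refine no_double (α := α) hα (s := s) (X := -x) hn
    (fun k => (n.choose k : ℝ) * Real.Gamma (k + 1 + α) ^ (-s) * x ^ k) hs1 hs2 (by linarith)
    ?_ ?_ h0 h1
  · have := Real.rpow_pos_of_pos (hΓ 0) (-s)
    simp only [Nat.choose_zero_right, Nat.cast_one, one_mul, pow_zero, mul_one]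
    exact this.ne'
  · intro k hk
    beta_reduce
    have hk1 : (0 : ℝ) < (k : ℝ) + 1 + α := by positivity
    have e0 : (((k + 1 : ℕ) : ℝ) + 1 + α) = ((k : ℝ) + 1 + α) + 1 := by push_cast; ring
    have e1 : Real.Gamma (((k + 1 : ℕ) : ℝ) + 1 + α) ^ (-s) =
        ((k : ℝ) + 1 + α) ^ (-s) * Real.Gamma (k + 1 + α) ^ (-s) := by
      rw [e0, Real.Gamma_add_one hk1.ne', Real.mul_rpow hk1.le (hΓ k).le]
    have e2 : ((k : ℝ) + 1 + α) ^ s * ((k : ℝ) + 1 + α) ^ (-s) = 1 := by
      rw [← Real.rpow_add hk1]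
      simp
    have e3 : (n.choose (k + 1) : ℝ) * ((k : ℝ) + 1) = (n.choose k : ℝ) * ((n : ℝ) - k) := by
      have h2 := Nat.choose_succ_right_eq n k
      have h3 : ((n - k : ℕ) : ℝ) = (n : ℝ) - k := by
        rw [Nat.cast_sub hk.le]
      rw [← h3]
      exact_mod_cast h2
    rw [e1, pow_succ]
    have e4 : ((k : ℝ) + 1) * ((k : ℝ) + 1 + α) ^ s * ((n.choose (k + 1) : ℝ) *
        (((k : ℝ) + 1 + α) ^ (-s) * Real.Gamma (k + 1 + α) ^ (-s)) * (x ^ k * x)) =
        (((k : ℝ) + 1 + α) ^ s * ((k : ℝ) + 1 + α) ^ (-s)) * ((n.choose (k + 1) : ℝ) *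
          ((k : ℝ) + 1)) * (Real.Gamma (k + 1 + α) ^ (-s) * (x ^ k * x)) := by ring
    rw [e4, e2, e3]
    ring

/-- generalised Laguerre polynomials, parameter `α ≥ 0` -/
lemma ms_gamma_base (n : ℕ) {α : ℝ} (hα : 0 ≤ α) :
    MS n (fun k => Real.Gamma (k + 1 + α) ^ (-(1 : ℝ))) := by
  rcases Nat.eq_zero_or_pos n with h0 | hn
  · subst h0
    exact PF.zero (by
      have := Real.rpow_pos_of_pos (Real.Gamma_pos_of_pos (show 0 < ((0 : ℕ) : ℝ) + 1 + α by
        positivity)) (-(1 : ℝ))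
      simpa using this)
  refine homotopy (n := n) (c := 0) (d := α) (fun α k => (n.choose k : ℝ) *
    Real.Gamma (k + 1 + α) ^ (-(1 : ℝ))) ?_ ?_ ?_ ?_ α ⟨hα, le_rfl⟩
  · intro k _
    apply ContinuousOn.mul continuousOn_const
    intro β hβ
    have hpos : 0 < (k : ℝ) + 1 + β := by
      have := hβ.1
      positivity
    have hne : ∀ m : ℕ, (k : ℝ) + 1 + β ≠ -m := by
      intro m h
      have : (0 : ℝ) ≤ m := Nat.cast_nonneg _
      linarith
    have hG := (Real.differentiableAt_Gamma hne).continuousAt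
    have h1 : ContinuousAt (fun β : ℝ => Real.Gamma ((k : ℝ) + 1 + β)) β :=
      ContinuousAt.comp (g := Real.Gamma) (f := fun β : ℝ => (k : ℝ) + 1 + β) hG (by fun_prop)
    exact (h1.rpow_const (Or.inl (Real.Gamma_pos_of_pos hpos).ne')).continuousWithinAt
  · intro β hβ k hk
    have hpos : 0 < (k : ℝ) + 1 + β := by
      have := hβ.1
      positivity
    exact mul_pos (choose_pos' hk) (Real.rpow_pos_of_pos (Real.Gamma_pos_of_pos hpos) _)
  · refine (pf_laguerre n).congr (fun k _ => ?_)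
    beta_reduce
    rw [Real.rpow_neg_one, add_zero, Real.Gamma_nat_eq_factorial]
  · intro β hβ x hx h0 h1
    exact simple_gamma hn hβ.1 le_rfl (by norm_num) hx h0 h1

/-- **Le Roy multipliers**, first range. -/
lemma ms_gamma_aux (n : ℕ) {α : ℝ} (hα : 0 ≤ α) : ∀ s ∈ Set.Icc (1 : ℝ) 2,
    MS n (fun k => Real.Gamma (k + 1 + α) ^ (-s)) := by
  have hΓ : ∀ k : ℕ, 0 < Real.Gamma (k + 1 + α) := fun k => Real.Gamma_pos_of_pos (by positivity)
  rcases Nat.eq_zero_or_pos n with h0 | hn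
  · subst h0
    intro s _
    exact PF.zero (by
      have := Real.rpow_pos_of_pos (hΓ 0) (-s)
      simpa using this)
  refine homotopy (fun s k => (n.choose k : ℝ) * Real.Gamma (k + 1 + α) ^ (-s)) ?_ ?_ ?_ ?_
  · intro k _
    apply ContinuousOn.mul continuousOn_const
    apply Continuous.continuousOn
    have h : Real.Gamma (k + 1 + α) ≠ 0 := (hΓ k).ne'
    fun_prop (disch := exact h)
  · intro s _ k hk
    exact mul_pos (choose_pos' hk) (Real.rpow_pos_of_pos (hΓ k) _)
  · exact ms_gamma_base n hα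
  · intro s hs x hx h0 h1
    exact simple_gamma hn hα hs.1 hs.2 hx h0 h1

/-- **Le Roy multipliers**: `Γ(k+1+α)^{-s}` is a multiplier sequence for all reals `s ≥ 1`,
`α ≥ 0`. -/
theorem ms_gamma (n : ℕ) {α s : ℝ} (hα : 0 ≤ α) (hs : 1 ≤ s) :
    MS n (fun k => Real.Gamma (k + 1 + α) ^ (-s)) := by
  have key : ∀ m : ℕ, ∀ s : ℝ, 1 ≤ s → s ≤ 2 + m →
      MS n (fun k => Real.Gamma (k + 1 + α) ^ (-s)) := by
    intro m
    induction m with
    | zero =>
      intro s h1 h2
      exact ms_gamma_aux n hα s ⟨h1, by simpa using h2⟩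
    | succ m ih =>
      intro s h1 h2
      rcases le_or_gt s 2 with h3 | h3
      · exact ms_gamma_aux n hα s ⟨h1, h3⟩
      · have h4 := ih (s - 1) (by linarith) (by push_cast at h2; linarith)
        have h5 := ms_gamma_aux n hα 1 ⟨le_rfl, by norm_num⟩
        refine (h4.mul h5).congr (fun k _ => ?_)
        have hΓ : 0 < Real.Gamma (k + 1 + α) := Real.Gamma_pos_of_pos (by positivity)
        rw [← Real.rpow_add hΓ]
        congr 1
        ring
  obtain ⟨m, hm⟩ := exists_nat_gt s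
  exact key m s hs (by linarith)

lemma ms_gamma' (n : ℕ) {β s : ℝ} (hβ : 0 ≤ β) (hs : 1 ≤ s) :
    MS n (fun k => Real.Gamma ((n : ℝ) - k + 1 + β) ^ (-s)) := by
  refine (MS.reverse (ms_gamma n hβ hs)).congr (fun k hk => ?_)
  rw [Nat.cast_sub hk]

/-- real powers of the binomial coefficients -/
theorem ms_choose (n : ℕ) {s : ℝ} (hs : 1 ≤ s) : MS n (fun k => (n.choose k : ℝ) ^ s) := by
  have h1 := (ms_gamma n (α := 0) le_rfl hs).mul (ms_gamma' n (β := 0) le_rfl hs)
  have hnf : (0 : ℝ) < (n.factorial : ℝ) := by exact_mod_cast n.factorial_pos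
  refine (h1.const_mul (c := (n.factorial : ℝ) ^ s) (Real.rpow_pos_of_pos hnf s)).congr
    (fun k hk => ?_)
  have hkf : (0 : ℝ) < (k.factorial : ℝ) := by exact_mod_cast k.factorial_pos
  have hkf' : (0 : ℝ) < ((n - k).factorial : ℝ) := by exact_mod_cast (n - k).factorial_pos
  rw [add_zero, add_zero, ← Nat.cast_sub hk, Real.Gamma_nat_eq_factorial,
    Real.Gamma_nat_eq_factorial, Nat.choose_eq_factorial_div_factorial hk, Nat.cast_div
    (Nat.factorial_mul_factorial_dvd_factorial hk) (by positivity)]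
  push_cast
  rw [Real.div_rpow hnf.le (by positivity), Real.mul_rpow hkf.le hkf'.le, Real.rpow_neg hkf.le,
    Real.rpow_neg hkf'.le]
  field_simp

end Pool.Agent.H62LR
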