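import Mathlib
import Pool.Agent.H49.RRDefs
import Pool.Agent.H49.PowerForm

open Polynomial Finset Filter Topology

/-! A variant of `Pool.Agent.H49.PowerForm` in which real-rootedness of `F[p]` is only assumed for
the polynomials `p = c (1 + ρ x)^n` and for the `p ∈ 𝒫⁺` of degree at most `2`. -/

namespace Pool.Agent.H62LR.PowerFormB

open Pool.Agent.H49.RR Pool.Agent.H49.PowerForm

/-- `F[p]` is real-rooted for the binomials `p = c (1 + ρ x)^n` and for the `p ∈ 𝒫⁺` of degree at
most two. -/
def PresB (F : ℝ → ℝ) : Prop :=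
  (∀ (c ρ : ℝ) (n : ℕ), 0 < c → 0 < ρ → RealRooted (entrywise F (testPoly c ρ n))) ∧
    ∀ p : ℝ[X], PPlus p → p.natDegree ≤ 2 → RealRooted (entrywise F p)

section preserver

variable {F : ℝ → ℝ}

lemma coeff_entrywise_testPoly (hF0 : F 0 = 0) {c ρ : ℝ} (hc : 0 < c) (hρ : 0 < ρ) (n k : ℕ) :
    (entrywise F (testPoly c ρ n)).coeff k = F (c * n.choose k * ρ ^ k) := by
  rw [coeff_entrywise, natDegree_testPoly hc hρ, coeff_testPoly]
  split_ifs with h
  · rfl
  · rw [Nat.choose_eq_zero_of_lt (by omega)]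
    simp [hF0]

/-- the sequence `F(c binom(n,k) ρ^k)` is `PF₂` -/
lemma pf2_seq (hF0 : F 0 = 0) (hFnn : ∀ t, 0 ≤ t → 0 ≤ F t) (hF : PresB F) {c ρ : ℝ}
    (hc : 0 < c) (hρ : 0 < ρ) (n : ℕ) : PF2 (fun k => F (c * n.choose k * ρ ^ k)) := by
  have h1 := hF.1 _ _ n hc hρ
  have h2 := h1.pf2 (fun k => by
    rw [coeff_entrywise_testPoly hF0 hc hρ]
    exact hFnn _ (by positivity))
  have h3 : (entrywise F (testPoly c ρ n)).coeff = fun k => F (c * n.choose k * ρ ^ k) := by
    ext k
    exact coeff_entrywise_testPoly hF0 hc hρ n k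
  rwa [h3] at h2

lemma eval_entrywise_testPoly {c ρ : ℝ} (hc : 0 < c) (hρ : 0 < ρ) (n : ℕ)
    (y : ℝ) : (entrywise F (testPoly c ρ n)).eval y =
      ∑ k ∈ range (n + 1), F (c * n.choose k * ρ ^ k) * y ^ k := by
  unfold entrywise
  rw [eval_finsetSum, natDegree_testPoly hc hρ]
  refine Finset.sum_congr rfl (fun k _ => ?_)
  rw [eval_monomial, coeff_testPoly]

lemma tendsto_ratio (j : ℕ) :
    Tendsto (fun K : ℕ => ((2 * K).choose (K + j) : ℝ) / ((2 * K).choose K)) atTop (𝓝 1) := by
  induction j with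
  | zero =>
    refine tendsto_const_nhds.congr (fun K => ?_)
    have : ((2 * K).choose K : ℝ) ≠ 0 := by
      exact_mod_cast (Nat.choose_pos (by omega)).ne'
    rw [add_zero, div_self this]
  | succ j ih =>
    have h1 : Tendsto (fun K : ℕ => ((K : ℝ) - j) / (K + j + 1)) atTop (𝓝 1) := by
      have h2 : Tendsto (fun K : ℕ => 1 - (2 * j + 1 : ℝ) / (K + j + 1)) atTop (𝓝 (1 - 0)) := by
        refine tendsto_const_nhds.sub (Tendsto.div_atTop tendsto_const_nhds ?_)
        have h3 : Tendsto (fun K : ℕ => (K : ℝ)) atTop atTop := tendsto_natCast_atTop_atTop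
        exact (h3.atTop_add (tendsto_const_nhds (x := (j : ℝ)))).atTop_add
          (tendsto_const_nhds (x := (1 : ℝ)))
      rw [sub_zero] at h2
      refine h2.congr (fun K => ?_)
      have : (K : ℝ) + j + 1 ≠ 0 := by positivity
      field_simp
      ring
    have h2 := ih.mul h1
    rw [mul_one] at h2
    refine h2.congr' ?_
    filter_upwards [eventually_ge_atTop j] with K hK
    have h3 : (2 * K).choose (K + j + 1) * (K + j + 1) = (2 * K).choose (K + j) * (K - j) := by
      have := Nat.choose_succ_right_eq (2 * K) (K + j)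
      rw [show 2 * K - (K + j) = K - j by omega] at this
      exact this
    have h4 : ((2 * K).choose (K + j + 1) : ℝ) * (K + j + 1)
        = (2 * K).choose (K + j) * ((K : ℝ) - j) := by
      have := congrArg (Nat.cast : ℕ → ℝ) h3
      push_cast [Nat.cast_sub hK] at this
      exact this
    have h5 : (K : ℝ) + j + 1 ≠ 0 := by positivity
    have h6 : ((2 * K).choose K : ℝ) ≠ 0 := by
      exact_mod_cast (Nat.choose_pos (by omega)).ne'
    rw [← add_assoc]
    field_simp
    linarith

/-- comparison of the values at `s` and at `t ≥ 2s` -/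
lemma two_mul_le (hFnn : ∀ t, 0 ≤ t → 0 ≤ F t) (hF : PresB F) {s t : ℝ} (hs : 0 < s)
    (hst : 2 * s ≤ t) : 2 * F s ≤ F t := by
  set p : ℝ[X] := monomial 0 s + monomial 1 t + monomial 2 s with hp
  have hc0 : p.coeff 0 = s := by simp [hp, coeff_monomial]
  have hc1 : p.coeff 1 = t := by simp [hp, coeff_monomial]
  have hc2 : p.coeff 2 = s := by simp [hp, coeff_monomial]
  have hdeg : p.natDegree = 2 := by
    apply natDegree_eq_of_le_of_coeff_ne_zero
    · rw [natDegree_le_iff_coeff_eq_zero]
      intro k hk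
      simp only [hp, coeff_add, coeff_monomial]
      rw [if_neg (by omega), if_neg (by omega), if_neg (by omega)]
      norm_num
    · rw [hc2]; exact hs.ne'
  have ht : 0 < t := by linarith
  have haev : ∀ z : ℂ, aeval z p = s + t * z + s * z ^ 2 := by
    intro z
    simp [hp, aeval_monomial]
  have hpp : PPlus p := by
    constructor
    · intro k hk
      rw [hdeg] at hk
      interval_cases k
      · rw [hc0]; exact hs
      · rw [hc1]; exact ht
      · rw [hc2]; exact hs
    · right
      intro z hz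
      rw [haev] at hz
      have hre := congrArg Complex.re hz
      have him := congrArg Complex.im hz
      simp [pow_two] at hre him
      by_contra hne
      have h1 : t + 2 * s * z.re = 0 := by
        have : z.im * (t + 2 * s * z.re) = 0 := by linarith
        rcases mul_eq_zero.1 this with h | h
        · exact absurd h hne
        · exact h
      have h2 : 0 < z.im ^ 2 := by positivity
      have h3 : z.re = -t / (2 * s) := by field_simp; linarith
      have h4 : s * (s + t * z.re + s * (z.re * z.re - z.im * z.im)) = 0 := by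
        rw [hre]; ring
      have h5 : s * z.re = -t / 2 := by rw [h3]; field_simp
      nlinarith [mul_pos hs hs, mul_pos (mul_pos hs hs) h2]
  have hent := hF.2 p hpp hdeg.le
  have he0 : (entrywise F p).coeff 0 = F s := by rw [coeff_entrywise, hdeg, hc0]; simp
  have he : ∀ z : ℂ, aeval z (entrywise F p) = F s + F t * z + F s * z ^ 2 := by
    intro z
    unfold entrywise
    rw [hdeg]
    simp [Finset.sum_range_succ, hc0, hc1, hc2, aeval_monomial]
  by_contra hcon
  push Not at hcon
  have hFt := hFnn t ht.le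
  have hFs : 0 < F s := by linarith
  rcases hent with h | h
  · rw [h] at he0; simp at he0; linarith
  · set D : ℝ := 4 * F s ^ 2 - F t ^ 2 with hD
    have hDpos : 0 < D := by rw [hD]; nlinarith
    set z : ℂ := ⟨-F t / (2 * F s), Real.sqrt D / (2 * F s)⟩ with hz
    have hz0 : aeval z (entrywise F p) = 0 := by
      rw [he]
      have hsq := Real.mul_self_sqrt hDpos.le
      apply Complex.ext
      · simp [hz, pow_two]
        field_simp
        rw [Real.sq_sqrt hDpos.le, hD]
        ring
      · simp [hz, pow_two]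
        field_simp
        ring
    have := h z hz0
    simp [hz] at this
    rcases this with h1 | h1
    · exact absurd h1 (Real.sqrt_pos.2 hDpos).ne'
    · exact absurd h1 hFs.ne'

/-- the coefficient in the centre of the test polynomial -/
lemma centre_coeff {A ρ : ℝ} (hρ : 0 < ρ) (K j : ℕ) :
    A / ((2 * K).choose K * ρ ^ K) * (2 * K).choose (K + j) * ρ ^ (K + j) =
      A * ρ ^ j * (((2 * K).choose (K + j) : ℝ) / ((2 * K).choose K)) := by
  have h6 : ((2 * K).choose K : ℝ) ≠ 0 := by
    exact_mod_cast (Nat.choose_pos (by omega)).ne'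
  rw [pow_add]
  field_simp

lemma mono_pos (hF0 : F 0 = 0) (hFnn : ∀ t, 0 ≤ t → 0 ≤ F t) (hF : PresB F) {s t : ℝ}
    (hs : 0 < s) (hst : s < t) : F s ≤ F t := by
  by_contra hcon
  push Not at hcon
  set τ := t / s with hτ
  have hτ1 : 1 < τ := by rw [hτ, one_lt_div hs]; exact hst
  obtain ⟨j, hj⟩ := ((tendsto_pow_atTop_atTop_of_one_lt hτ1).eventually
    (eventually_ge_atTop 4)).exists
  have hev : ∀ᶠ K : ℕ in atTop, (1 : ℝ) / 2 < ((2 * K).choose (K + j) : ℝ) / ((2 * K).choose K) :=
    (tendsto_ratio j).eventually (lt_mem_nhds (by norm_num))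
  obtain ⟨K, hK1, hK2⟩ := (hev.and (eventually_ge_atTop 1)).exists
  have hKpos : (0 : ℝ) < K := by exact_mod_cast hK2
  set ρ := τ * ((K + 1) / K) with hρ
  have hτ0 : 0 < τ := by linarith
  have hρ0 : 0 < ρ := by positivity
  have hρτ : τ ≤ ρ := by
    rw [hρ]
    have : (1 : ℝ) ≤ (K + 1) / K := by rw [le_div_iff₀ hKpos]; linarith
    nlinarith
  have hch : (0 : ℝ) < (2 * K).choose K := by exact_mod_cast Nat.choose_pos (by omega)
  set c := s / ((2 * K).choose K * ρ ^ K) with hc
  have hc0 : 0 < c := by positivity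
  have hpf := pf2_seq hF0 hFnn hF hc0 hρ0 (2 * K)
  have hq : ∀ i, c * (2 * K).choose (K + i) * ρ ^ (K + i) =
      s * ρ ^ i * (((2 * K).choose (K + i) : ℝ) / ((2 * K).choose K)) :=
    fun i => centre_coeff hρ0 K i
  have hqK : c * (2 * K).choose K * ρ ^ K = s := by
    have := hq 0
    simp only [add_zero, pow_zero, mul_one] at this
    rw [this, div_self hch.ne', mul_one]
  have hqK1 : c * (2 * K).choose (K + 1) * ρ ^ (K + 1) = t := by
    rw [hq 1]
    have h3 : ((2 * K).choose (K + 1) : ℝ) * (K + 1) = (2 * K).choose K * K := by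
      have := Nat.choose_succ_right_eq (2 * K) K
      rw [show 2 * K - K = K by omega] at this
      exact_mod_cast this
    have h4 : ((2 * K).choose (K + 1) : ℝ) / ((2 * K).choose K) = K / (K + 1) := by
      rw [div_eq_div_iff hch.ne' (by positivity)]
      linarith
    rw [h4, hρ, hτ, pow_one]
    field_simp
  have hdec : ∀ i, F (c * (2 * K).choose (K + 1 + i) * ρ ^ (K + 1 + i)) ≤ F t := by
    intro i
    induction i with
    | zero => rw [add_zero, hqK1]
    | succ i ih =>
      have h1 := hpf.2 K (K + 1 + i) (by omega)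
      simp only [hqK, hqK1] at h1
      have h2 := hpf.1 (K + 1 + i)
      have h3 := hpf.1 (K + 1 + i + 1)
      simp only at h2 h3
      have hFt := hFnn t (by linarith)
      have h4 : F s * F (c * (2 * K).choose (K + 1 + i + 1) * ρ ^ (K + 1 + i + 1)) ≤
          F s * F (c * (2 * K).choose (K + 1 + i) * ρ ^ (K + 1 + i)) :=
        h1.trans (mul_le_mul_of_nonneg_right hcon.le h2)
      have h5 := le_of_mul_le_mul_left h4 (lt_of_le_of_lt hFt hcon)
      exact h5.trans ih
  have hj1 : 1 ≤ j := by
    by_contra h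
    have : j = 0 := by omega
    subst this
    norm_num at hj
  have h1 := hdec (j - 1)
  rw [show K + 1 + (j - 1) = K + j by omega, hq j] at h1
  have h2 : 2 * s ≤ s * ρ ^ j * (((2 * K).choose (K + j) : ℝ) / ((2 * K).choose K)) := by
    have h3 : (4 : ℝ) ≤ ρ ^ j := hj.trans (pow_le_pow_left₀ hτ0.le hρτ j)
    have h4 : (2 : ℝ) ≤ ρ ^ j * (((2 * K).choose (K + j) : ℝ) / ((2 * K).choose K)) := by
      nlinarith [hK1.le]
    nlinarith
  have h3 := two_mul_le hFnn hF hs h2
  have hFt := hFnn t (by linarith)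
  linarith

set_option maxHeartbeats 4000000 in
/-- Main lemma: along a geometric sequence on which the values of `F` are log-concave, the values
of `F` form a geometric sequence (three consecutive terms). -/
lemma geometric_of_logConcave (hF0 : F 0 = 0) (hFnn : ∀ t, 0 ≤ t → 0 ≤ F t) (hF : PresB F)
    (hmono : ∀ s t, 0 < s → s ≤ t → F s ≤ F t) {A ρ : ℝ} (hA : 0 < A) (hρ : 1 < ρ)
    (hlc : ∀ j : ℤ, F (A * ρ ^ (j - 1)) * F (A * ρ ^ (j + 1)) ≤ F (A * ρ ^ j) ^ 2)
    (hb0 : 0 < F A) : F (A * ρ⁻¹) * F (A * ρ) = F A ^ 2 := by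
  have hρ0 : 0 < ρ := by linarith
  have hle0 : F (A * ρ⁻¹) * F (A * ρ) ≤ F A ^ 2 := by
    have := hlc 0
    simpa [zpow_neg] using this
  by_contra hne
  have hlt : F (A * ρ⁻¹) * F (A * ρ) < F A ^ 2 := lt_of_le_of_ne hle0 hne
  -- the sequences to the right and to the left
  set R : ℕ → ℝ := fun j => F (A * ρ ^ j) with hR
  set L : ℕ → ℝ := fun j => F (A * (ρ⁻¹) ^ j) with hL
  have hR0 : R 0 = F A := by simp [hR]
  have hL0 : L 0 = F A := by simp [hL]
  have hR1 : R 1 = F (A * ρ) := by simp [hR]
  have hL1 : L 1 = F (A * ρ⁻¹) := by simp [hL]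
  have hRpos : ∀ j, F A ≤ R j := by
    intro j
    exact hmono _ _ hA (le_mul_of_one_le_right hA.le (one_le_pow₀ hρ.le))
  have hLnn : ∀ j, 0 ≤ L j := fun j => hFnn _ (by positivity)
  have hRlc : ∀ j, R j * R (j + 2) ≤ R (j + 1) ^ 2 := by
    intro j
    have := hlc (j + 1)
    rw [show ((j : ℤ) + 1 - 1) = (j : ℕ) by ring, show ((j : ℤ) + 1 + 1) = ((j + 2 : ℕ) : ℤ) by
      push_cast; ring, show ((j : ℤ) + 1) = ((j + 1 : ℕ) : ℤ) by push_cast; ring] at this
    simpa only [zpow_natCast] using this
  have hLlc : ∀ j, L j * L (j + 2) ≤ L (j + 1) ^ 2 := by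
    intro j
    have := hlc (-(j + 1))
    rw [show (-((j : ℤ) + 1) - 1) = -((j + 2 : ℕ) : ℤ) by push_cast; ring,
      show (-((j : ℤ) + 1) + 1) = -((j : ℕ) : ℤ) by ring,
      show (-((j : ℤ) + 1)) = -((j + 1 : ℕ) : ℤ) by push_cast; ring] at this
    simp only [zpow_neg, zpow_natCast] at this
    simp only [hL, inv_pow]
    linarith
  set u := R 1 / F A with hu
  set w := L 1 / F A with hw
  have hu1 : 1 ≤ u := by rw [hu, one_le_div hb0]; exact hRpos 1
  have hw0 : 0 ≤ w := div_nonneg (hLnn 1) hb0.le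
  have hRu : ∀ j, R (j + 1) ≤ u * R j ∧ R j ≤ F A * u ^ j := by
    intro j
    induction j with
    | zero =>
      constructor
      · rw [zero_add, hR0, hu, div_mul_cancel₀ _ hb0.ne']
      · rw [hR0]; simp
    | succ j ih =>
      obtain ⟨ih1, ih2⟩ := ih
      have hRj : 0 < R j := lt_of_lt_of_le hb0 (hRpos j)
      have hRj1 : 0 < R (j + 1) := lt_of_lt_of_le hb0 (hRpos (j + 1))
      constructor
      · have h1 := hRlc j
        have h2 : R j * R (j + 2) ≤ R j * (u * R (j + 1)) := by
          calc R j * R (j + 2) ≤ R (j + 1) ^ 2 := h1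
            _ = R (j + 1) * R (j + 1) := by ring
            _ ≤ (u * R j) * R (j + 1) := mul_le_mul_of_nonneg_right ih1 hRj1.le
            _ = R j * (u * R (j + 1)) := by ring
        exact le_of_mul_le_mul_left h2 hRj
      · calc R (j + 1) ≤ u * R j := ih1
          _ ≤ u * (F A * u ^ j) := mul_le_mul_of_nonneg_left ih2 (by linarith)
          _ = F A * u ^ (j + 1) := by ring
  have hLmono : ∀ j, L (j + 1) ≤ L j := by
    intro j
    refine hmono _ _ (by positivity) ?_
    refine mul_le_mul_of_nonneg_left ?_ hA.le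
    exact pow_le_pow_of_le_one (by positivity) (inv_le_one_of_one_le₀ hρ.le) (by omega)
  have hLw : ∀ j, L (j + 1) ≤ w * L j ∧ L j ≤ F A * w ^ j := by
    intro j
    induction j with
    | zero =>
      constructor
      · rw [zero_add, hL0, hw, div_mul_cancel₀ _ hb0.ne']
      · rw [hL0]; simp
    | succ j ih =>
      obtain ⟨ih1, ih2⟩ := ih
      constructor
      · rcases eq_or_lt_of_le (hLnn j) with h | h
        · have h1 : L (j + 1) = 0 := le_antisymm ((hLmono j).trans h.ge) (hLnn _)
          have h2 : L (j + 2) = 0 := le_antisymm ((hLmono (j + 1)).trans h1.le) (hLnn _)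
          show L (j + 2) ≤ _
          rw [h1, h2]; simp
        · have h1 := hLlc j
          have h2 : L j * L (j + 2) ≤ L j * (w * L (j + 1)) := by
            calc L j * L (j + 2) ≤ L (j + 1) ^ 2 := h1
              _ = L (j + 1) * L (j + 1) := by ring
              _ ≤ (w * L j) * L (j + 1) := mul_le_mul_of_nonneg_right ih1 (hLnn _)
              _ = L j * (w * L (j + 1)) := by ring
          exact le_of_mul_le_mul_left h2 h
      · calc L (j + 1) ≤ w * L j := ih1
          _ ≤ w * (F A * w ^ j) := mul_le_mul_of_nonneg_left ih2 hw0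
          _ = F A * w ^ (j + 1) := by ring
  -- the interval of convergence is nontrivial
  have hwu : w < 1 / u := by
    rw [lt_div_iff₀ (by linarith), hw, hu, hR1, hL1, div_mul_div_comm, div_lt_one (by positivity)]
    linarith [hlt]
  set y := (w + 1 / u) / 2 with hy
  have hy1 : w < y := by rw [hy]; linarith
  have hy2 : y < 1 / u := by rw [hy]; linarith
  have hu0 : 0 < u := by linarith
  have hy0 : 0 < y := by
    have : 0 < 1 / u := by positivity
    rw [hy]; linarith
  have hyle1 : y < 1 := lt_of_lt_of_le hy2 (by rw [div_le_one hu0]; exact hu1)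
  -- choose `t`
  obtain ⟨t, ht1, htw, htu⟩ : ∃ t : ℝ, 1 < t ∧ w < y / t ∧ t * y < 1 / u := by
    have c1 : ContinuousAt (fun t : ℝ => y / t) 1 := by
      refine continuousAt_const.div continuousAt_id one_ne_zero
    have c2 : ContinuousAt (fun t : ℝ => t * y) 1 := by fun_prop
    have e1 : ∀ᶠ t in 𝓝 (1 : ℝ), w < y / t :=
      c1.eventually (lt_mem_nhds (by simpa using hy1))
    have e2 : ∀ᶠ t in 𝓝 (1 : ℝ), t * y < 1 / u :=
      c2.eventually (gt_mem_nhds (by simpa using hy2))
    have e3 : ∀ᶠ t in 𝓝[>] (1 : ℝ), (w < y / t ∧ t * y < 1 / u) ∧ 1 < t :=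
      ((e1.and e2).filter_mono nhdsWithin_le_nhds).and self_mem_nhdsWithin
    obtain ⟨t, h1, h2⟩ := e3.exists
    exact ⟨t, h2, h1.1, h1.2⟩
  have ht0 : 0 < t := by linarith
  have htt : 0 < t + 1 / t - 2 := by
    have : t + 1 / t - 2 = (t - 1) ^ 2 / t := by field_simp; ring
    rw [this]
    have : t - 1 ≠ 0 := by linarith
    positivity
  set t' := 1 / y with ht'
  have ht'0 : 0 < t' := by positivity
  obtain ⟨N, hN⟩ := exists_nat_ge ((t' + 1 / t' - 2) / (t + 1 / t - 2))
  rw [div_le_iff₀ htt] at hN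
  -- the bounding function
  set B : ℝ → ℝ := fun z => F A * (1 / (1 - u * z) + 1 / (1 - w / z)) with hB
  have hBpos : ∀ z, w < z → z < 1 / u → 0 < z → 0 < B z := by
    intro z h1 h2 h3
    have h4 : 0 < 1 - u * z := by
      rw [lt_div_iff₀ hu0] at h2
      linarith
    have h5 : 0 < 1 - w / z := by
      have : w / z < 1 := by rw [div_lt_one h3]; exact h1
      linarith
    simp only [hB]
    positivity
  -- choose `J`
  obtain ⟨J, hJ⟩ := exists_nat_gt
    (((B (t * y) * B (y / t)) ^ N * B y ^ 2) / (F A ^ (2 + 2 * N)))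
  rw [div_lt_iff₀ (by positivity)] at hJ
  -- choose `K`
  have hρpow : ∀ j : ℕ, 1 ≤ j → ρ ^ j ≥ ρ := by
    intro j hj
    calc ρ ^ j ≥ ρ ^ 1 := pow_le_pow_right₀ hρ.le hj
      _ = ρ := pow_one ρ
  have hev : ∀ᶠ K : ℕ in atTop, ∀ j ∈ Finset.range (J + 1),
      ρ⁻¹ < ((2 * K).choose (K + j) : ℝ) / ((2 * K).choose K) := by
    rw [Filter.eventually_all_finset]
    intro j _
    exact (tendsto_ratio j).eventually (lt_mem_nhds (inv_lt_one_of_one_lt₀ hρ))
  obtain ⟨K, hK1, hK2⟩ := (hev.and (eventually_ge_atTop J)).exists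
  have hch : (0 : ℝ) < (2 * K).choose K := by exact_mod_cast Nat.choose_pos (by omega)
  set c := A / ((2 * K).choose K * ρ ^ K) with hc
  have hc0 : 0 < c := by positivity
  set P := entrywise F (testPoly c ρ (2 * K)) with hP
  have hPc : ∀ k, P.coeff k = F (c * (2 * K).choose k * ρ ^ k) :=
    coeff_entrywise_testPoly hF0 hc0 hρ0 (2 * K)
  have hPnn : ∀ k, 0 ≤ P.coeff k := fun k => by
    rw [hPc]; exact hFnn _ (by positivity)
  have hcK : c * (2 * K).choose K * ρ ^ K = A := by
    have := centre_coeff (A := A) hρ0 K 0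
    simp only [add_zero, pow_zero, mul_one] at this
    rw [hc, this, div_self hch.ne', mul_one]
  have hPK : P.coeff K = F A := by rw [hPc, hcK]
  have hP0 : P ≠ 0 := by
    intro h
    rw [h] at hPK
    simp at hPK
    linarith
  have hPrr : RealRooted P := hF.1 _ _ (2 * K) hc0 hρ0
  have hPeval : ∀ z, P.eval z = ∑ k ∈ range (2 * K + 1), F (c * (2 * K).choose k * ρ ^ k) * z ^ k :=
    eval_entrywise_testPoly hc0 hρ0 (2 * K)
  -- lower bounds
  have hlow : ∀ z, 0 < z → F A * z ^ K ≤ P.eval z := by
    intro z hz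
    rw [hPeval]
    have := Finset.single_le_sum (f := fun k => F (c * (2 * K).choose k * ρ ^ k) * z ^ k)
      (fun k _ => mul_nonneg (hFnn _ (by positivity)) (by positivity))
      (Finset.mem_range.2 (show K < 2 * K + 1 by omega))
    simp only [hcK] at this
    exact this
  have hlow1 : J * F A ≤ P.eval 1 := by
    rw [hPeval]
    have h1 : ∀ j ∈ Finset.range J, F A ≤
        F (c * (2 * K).choose (K + 1 + j) * ρ ^ (K + 1 + j)) * 1 ^ (K + 1 + j) := by
      intro j hj
      rw [Finset.mem_range] at hj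
      rw [one_pow, mul_one]
      have h2 := centre_coeff (A := A) hρ0 K (1 + j)
      rw [← add_assoc] at h2
      rw [hc, h2]
      refine hmono _ _ hA ?_
      have h3 := hK1 (1 + j) (by rw [Finset.mem_range]; omega)
      rw [← add_assoc] at h3
      have h4 := hρpow (1 + j) (by omega)
      have h5 : 1 ≤ ρ ^ (1 + j) * (((2 * K).choose (K + 1 + j) : ℝ) / ((2 * K).choose K)) := by
        calc (1 : ℝ) = ρ * ρ⁻¹ := (mul_inv_cancel₀ hρ0.ne').symm
          _ ≤ ρ ^ (1 + j) * (((2 * K).choose (K + 1 + j) : ℝ) / ((2 * K).choose K)) :=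
            mul_le_mul h4 h3.le (by positivity) (by positivity)
      calc A = A * 1 := (mul_one A).symm
        _ ≤ A * (ρ ^ (1 + j) * (((2 * K).choose (K + 1 + j) : ℝ) / ((2 * K).choose K))) :=
          mul_le_mul_of_nonneg_left h5 hA.le
        _ = _ := by ring
    have h2 := Finset.sum_le_sum h1
    rw [Finset.sum_const, Finset.card_range, nsmul_eq_mul] at h2
    refine h2.trans ?_
    have h3 : ∑ j ∈ Finset.range J,
        F (c * (2 * K).choose (K + 1 + j) * ρ ^ (K + 1 + j)) * 1 ^ (K + 1 + j) =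
        ∑ k ∈ (Finset.range J).map (addLeftEmbedding (K + 1)),
        F (c * (2 * K).choose k * ρ ^ k) * 1 ^ k := by
      rw [Finset.sum_map]
      rfl
    rw [h3]
    refine Finset.sum_le_sum_of_subset_of_nonneg ?_
      (fun k _ _ => mul_nonneg (hFnn _ (by positivity)) (by positivity))
    intro k hk
    rw [Finset.mem_map] at hk
    obtain ⟨j, hj, rfl⟩ := hk
    rw [Finset.mem_range] at hj ⊢
    simp only [addLeftEmbedding_apply]
    omega
  -- upper bounds
  have hratio_le : ∀ k, ((2 * K).choose k : ℝ) ≤ (2 * K).choose K := by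
    intro k
    have := Nat.choose_le_middle k (2 * K)
    rw [show 2 * K / 2 = K by omega] at this
    exact_mod_cast this
  have hupp : ∀ z, w < z → z < 1 / u → 0 < z → P.eval z ≤ B z * z ^ K := by
    intro z h1 h2 h3
    have h4 : u * z < 1 := by
      rw [lt_div_iff₀ hu0] at h2
      linarith
    have h5 : w / z < 1 := by rw [div_lt_one h3]; exact h1
    have h5' : 0 ≤ w / z := by positivity
    rw [hPeval, show 2 * K + 1 = K + (K + 1) by ring, Finset.sum_range_add]
    -- right part
    have hr : ∑ j ∈ range (K + 1), F (c * (2 * K).choose (K + j) * ρ ^ (K + j)) * z ^ (K + j) ≤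
        F A * (1 / (1 - u * z)) * z ^ K := by
      have h6 : ∀ j ∈ range (K + 1), F (c * (2 * K).choose (K + j) * ρ ^ (K + j)) * z ^ (K + j) ≤
          F A * z ^ K * (u * z) ^ j := by
        intro j _
        have h7 : F (c * (2 * K).choose (K + j) * ρ ^ (K + j)) ≤ R j := by
          rcases Nat.lt_or_ge (2 * K) (K + j) with h | h
          · rw [Nat.choose_eq_zero_of_lt h]
            simp only [Nat.cast_zero, mul_zero, zero_mul, hF0]
            exact le_trans hb0.le (hRpos j)
          · rw [hc, centre_coeff hρ0 K j]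
            have h8 : (0 : ℝ) < (2 * K).choose (K + j) := by exact_mod_cast Nat.choose_pos h
            refine hmono _ _ (by positivity) ?_
            refine mul_le_of_le_one_right (by positivity) ?_
            rw [div_le_one hch]
            exact hratio_le _
        calc _ ≤ (F A * u ^ j) * z ^ (K + j) :=
              mul_le_mul_of_nonneg_right (h7.trans (hRu j).2) (by positivity)
          _ = _ := by rw [pow_add, mul_pow]; ring
      refine (Finset.sum_le_sum h6).trans ?_
      rw [← Finset.mul_sum]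
      have h9 : ∑ j ∈ range (K + 1), (u * z) ^ j ≤ 1 / (1 - u * z) := by
        have hs : Summable (fun j : ℕ => (u * z) ^ j) :=
          summable_geometric_of_lt_one (by positivity) h4
        have := hs.sum_le_tsum (range (K + 1)) (fun _ _ => by positivity)
        rwa [tsum_geometric_of_lt_one (by positivity) h4, ← one_div] at this
      calc F A * z ^ K * ∑ j ∈ range (K + 1), (u * z) ^ j ≤ F A * z ^ K * (1 / (1 - u * z)) :=
            mul_le_mul_of_nonneg_left h9 (by positivity)
        _ = _ := by ring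
    -- left part
    have hl : ∑ k ∈ range K, F (c * (2 * K).choose k * ρ ^ k) * z ^ k ≤
        F A * (1 / (1 - w / z)) * z ^ K := by
      rw [← Finset.sum_range_reflect]
      have h6 : ∀ i ∈ range K, F (c * (2 * K).choose (K - 1 - i) * ρ ^ (K - 1 - i)) *
          z ^ (K - 1 - i) ≤ F A * z ^ K * (w / z) ^ i := by
        intro i hi
        rw [Finset.mem_range] at hi
        obtain ⟨k, hk⟩ : ∃ k, k = K - 1 - i := ⟨_, rfl⟩
        rw [← hk]
        have hKk : K = k + (i + 1) := by omega
        have h7 : F (c * (2 * K).choose k * ρ ^ k) ≤ L (i + 1) := by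
          have h8 : (0 : ℝ) < (2 * K).choose k := by
            exact_mod_cast Nat.choose_pos (by omega)
          refine hmono _ _ (by positivity) ?_
          have h9 : c * (2 * K).choose k * ρ ^ k =
              A * (ρ⁻¹) ^ (i + 1) * (((2 * K).choose k : ℝ) / ((2 * K).choose K)) := by
            rw [hc]
            have : ρ ^ K = ρ ^ k * ρ ^ (i + 1) := by rw [← pow_add, ← hKk]
            rw [this, inv_pow]
            field_simp
          rw [h9]
          refine mul_le_of_le_one_right (by positivity) ?_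
          rw [div_le_one hch]
          exact hratio_le _
        have h10 : L (i + 1) * z ^ k ≤ F A * z ^ K * (w / z) ^ i := by
          have h11 : z ^ K = z ^ k * z ^ i * z := by rw [hKk]; ring
          have h12 : F A * z ^ K * (w / z) ^ i = F A * w ^ i * z ^ k * z := by
            rw [h11, div_pow]
            field_simp
          rw [h12]
          have h13 : L (i + 1) ≤ F A * w ^ i * z := by
            calc L (i + 1) ≤ F A * w ^ (i + 1) := (hLw (i + 1)).2
              _ = F A * w ^ i * w := by ring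
              _ ≤ F A * w ^ i * z := mul_le_mul_of_nonneg_left h1.le (by positivity)
          calc L (i + 1) * z ^ k ≤ (F A * w ^ i * z) * z ^ k :=
                mul_le_mul_of_nonneg_right h13 (by positivity)
            _ = _ := by ring
        exact (mul_le_mul_of_nonneg_right h7 (by positivity)).trans h10
      refine (Finset.sum_le_sum h6).trans ?_
      rw [← Finset.mul_sum]
      have h9 : ∑ j ∈ range K, (w / z) ^ j ≤ 1 / (1 - w / z) := by
        have hs : Summable (fun j : ℕ => (w / z) ^ j) :=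
          summable_geometric_of_lt_one h5' h5
        have := hs.sum_le_tsum (range K) (fun _ _ => by positivity)
        rwa [tsum_geometric_of_lt_one h5' h5, ← one_div] at this
      calc F A * z ^ K * ∑ j ∈ range K, (w / z) ^ j ≤ F A * z ^ K * (1 / (1 - w / z)) :=
            mul_le_mul_of_nonneg_left h9 (by positivity)
        _ = _ := by ring
    calc _ ≤ F A * (1 / (1 - w / z)) * z ^ K + F A * (1 / (1 - u * z)) * z ^ K := add_le_add hl hr
      _ = B z * z ^ K := by simp only [hB]; ring
  -- the contradiction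
  have hkey := key_inequality hPrr hP0 hPnn hy0 ht0 ht'0 hN htt.le
  have e1 : t' * y = 1 := by rw [ht']; field_simp
  have e2 : y / t' = y ^ 2 := by rw [ht']; field_simp
  rw [e1, e2] at hkey
  have hb1 := hBpos (t * y) (by nlinarith) htu (by positivity)
  have hb2 := hBpos (y / t) htw (lt_of_le_of_lt (div_le_self hy0.le ht1.le) hy2) (by positivity)
  have hb3 := hBpos y hy1 hy2 hy0
  have l1 : (J * F A) * (F A * (y ^ 2) ^ K) * (F A * y ^ K) ^ (2 * N) ≤
      (P.eval 1 * P.eval (y ^ 2)) * P.eval y ^ (2 * N) := by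
    have a1 := hlow (y ^ 2) (by positivity)
    have a2 := hlow y hy0
    have a3 : 0 ≤ P.eval 1 := le_trans (by positivity) hlow1
    have a4 : 0 ≤ P.eval (y ^ 2) := le_trans (by positivity) a1
    have a5 : 0 ≤ P.eval 1 * P.eval (y ^ 2) := mul_nonneg a3 a4
    gcongr
  have l2 : (P.eval (t * y) * P.eval (y / t)) ^ N * P.eval y ^ 2 ≤
      ((B (t * y) * (t * y) ^ K) * (B (y / t) * (y / t) ^ K)) ^ N * (B y * y ^ K) ^ 2 := by
    have a1 := hupp (t * y) (by nlinarith) htu (by positivity)
    have a2 := hupp (y / t) htw (lt_of_le_of_lt (div_le_self hy0.le ht1.le) hy2) (by positivity)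
    have a3 := hupp y hy1 hy2 hy0
    have p1 := (eval_pos hP0 hPnn (x := t * y) (by positivity)).le
    have p2 := (eval_pos hP0 hPnn (x := y / t) (by positivity)).le
    have p3 := (eval_pos hP0 hPnn hy0).le
    gcongr
  have hfin := l1.trans (hkey.trans l2)
  have e3 : (J * F A) * (F A * (y ^ 2) ^ K) * (F A * y ^ K) ^ (2 * N) =
      (J * F A ^ (2 + 2 * N)) * (y ^ K) ^ (2 + 2 * N) := by
    rw [mul_pow, pow_add (F A), pow_add (y ^ K), ← pow_mul, ← pow_mul, ← pow_mul]
    ring
  have e4 : ((B (t * y) * (t * y) ^ K) * (B (y / t) * (y / t) ^ K)) ^ N * (B y * y ^ K) ^ 2 =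
      ((B (t * y) * B (y / t)) ^ N * B y ^ 2) * (y ^ K) ^ (2 + 2 * N) := by
    have e5 : (B (t * y) * (t * y) ^ K) * (B (y / t) * (y / t) ^ K) =
        (B (t * y) * B (y / t)) * (y ^ K) ^ 2 := by
      have : (t * y) ^ K * (y / t) ^ K = (y ^ K) ^ 2 := by
        rw [← mul_pow, ← pow_mul, mul_comm K 2, pow_mul]
        congr 1
        field_simp
      calc _ = (B (t * y) * B (y / t)) * ((t * y) ^ K * (y / t) ^ K) := by ring
        _ = _ := by rw [this]
    rw [e5, mul_pow, mul_pow (B y), pow_add (y ^ K), pow_mul (y ^ K)]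
    ring
  rw [e3, e4] at hfin
  have h7 := le_of_mul_le_mul_right hfin (by positivity)
  linarith

end preserver

section preserver2

variable {F : ℝ → ℝ}

/-- log-concavity along geometric triples whose outer terms are continuity points -/
lemma logConcave_of_continuousAt (hF0 : F 0 = 0) (hFnn : ∀ t, 0 ≤ t → 0 ≤ F t)
    (hF : PresB F) {A ρ : ℝ} (hA : 0 < A) (hρ : 1 < ρ)
    (h1 : ContinuousAt F (A * ρ)) (h2 : ContinuousAt F (A * ρ⁻¹)) :
    F (A * ρ⁻¹) * F (A * ρ) ≤ F A ^ 2 := by
  have hρ0 : 0 < ρ := by linarith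
  have hlim : Tendsto (fun K : ℕ => ((K : ℝ) + 1) / (K + 2)) atTop (𝓝 1) := by
    have h3 : Tendsto (fun K : ℕ => 1 - (1 : ℝ) / (K + 2)) atTop (𝓝 (1 - 0)) := by
      refine tendsto_const_nhds.sub (Tendsto.div_atTop tendsto_const_nhds ?_)
      have h3 : Tendsto (fun K : ℕ => (K : ℝ)) atTop atTop := tendsto_natCast_atTop_atTop
      exact h3.atTop_add (tendsto_const_nhds (x := (2 : ℝ)))
    rw [sub_zero] at h3
    refine h3.congr (fun K => ?_)
    have : (K : ℝ) + 2 ≠ 0 := by positivity
    field_simp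
    ring
  have key : ∀ K : ℕ, F (A * ρ⁻¹ * (((K : ℝ) + 1) / (K + 2))) *
      F (A * ρ * (((K : ℝ) + 1) / (K + 2))) ≤ F A ^ 2 := by
    intro K
    set M := K + 1 with hM
    have hch : (0 : ℝ) < (2 * M).choose M := by exact_mod_cast Nat.choose_pos (by omega)
    set c := A / ((2 * M).choose M * ρ ^ M) with hc
    have hc0 : 0 < c := by positivity
    have hpf := (pf2_seq hF0 hFnn hF hc0 hρ0 (2 * M)).2 (M - 1) M (by omega)
    simp only at hpf
    rw [show M - 1 + 1 = M by omega] at hpf
    have e0 : c * (2 * M).choose M * ρ ^ M = A := by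
      rw [hc]; field_simp
    have e1 : c * (2 * M).choose (M + 1) * ρ ^ (M + 1) = A * ρ * (((K : ℝ) + 1) / (K + 2)) := by
      rw [hc, centre_coeff hρ0 M 1]
      have h3 : ((2 * M).choose (M + 1) : ℝ) * (M + 1) = (2 * M).choose M * M := by
        have := Nat.choose_succ_right_eq (2 * M) M
        rw [show 2 * M - M = M by omega] at this
        exact_mod_cast this
      have h4 : ((2 * M).choose (M + 1) : ℝ) / ((2 * M).choose M) = M / (M + 1) := by
        rw [div_eq_div_iff hch.ne' (by positivity)]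
        linarith
      rw [h4, pow_one, hM]
      push_cast
      ring
    have e2 : c * (2 * M).choose (M - 1) * ρ ^ (M - 1) =
        A * ρ⁻¹ * (((K : ℝ) + 1) / (K + 2)) := by
      have h3 : ((2 * M).choose M : ℝ) * M = (2 * M).choose (M - 1) * (M + 1) := by
        have := Nat.choose_succ_right_eq (2 * M) (M - 1)
        rw [show M - 1 + 1 = M by omega, show 2 * M - (M - 1) = M + 1 by omega] at this
        exact_mod_cast this
      have h4 : ((2 * M).choose (M - 1) : ℝ) = (2 * M).choose M * (M / (M + 1)) := by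
        field_simp
        linarith
      have h5 : ρ ^ M = ρ ^ (M - 1) * ρ := by rw [← pow_succ, show M - 1 + 1 = M by omega]
      have h6 : (M : ℝ) / (M + 1) = ((K : ℝ) + 1) / (K + 2) := by
        rw [hM]; push_cast; ring
      rw [hc, h4, h5, ← h6]
      field_simp
    rw [e0, e1, e2] at hpf
    calc _ ≤ F A * F A := hpf
      _ = _ := by ring
  have t1 : Tendsto (fun K : ℕ => A * ρ⁻¹ * (((K : ℝ) + 1) / (K + 2))) atTop (𝓝 (A * ρ⁻¹)) := by
    simpa using hlim.const_mul (A * ρ⁻¹)
  have t2 : Tendsto (fun K : ℕ => A * ρ * (((K : ℝ) + 1) / (K + 2))) atTop (𝓝 (A * ρ)) := by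
    simpa using hlim.const_mul (A * ρ)
  exact le_of_tendsto' ((h2.tendsto.comp t1).mul (h1.tendsto.comp t2)) key

end preserver2

/-- **Main theorem.**  A function `F : [0,∞) → [0,∞)` with `F 0 = 0` preserving real-rootedness
vanishes identically or is of the form `c t ^ r` with `c > 0`, `r ≥ 1`. -/
theorem power_form (F : ℝ → ℝ) (hF0 : F 0 = 0) (hFnn : ∀ t, 0 ≤ t → 0 ≤ F t) (hF : PresB F) :
    (∀ t, 0 ≤ t → F t = 0) ∨ ∃ c r : ℝ, 0 < c ∧ 1 ≤ r ∧ ∀ t, 0 ≤ t → F t = c * t ^ r := by
  have hmono : ∀ s t, 0 < s → s ≤ t → F s ≤ F t := by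
    intro s t hs hst
    rcases eq_or_lt_of_le hst with rfl | h
    · exact le_rfl
    · exact mono_pos hF0 hFnn hF hs h
  by_cases hzero : ∀ t, 0 ≤ t → F t = 0
  · exact Or.inl hzero
  right
  push Not at hzero
  obtain ⟨s₀, hs₀, hFs₀⟩ := hzero
  have hs₀' : 0 < s₀ := by
    rcases eq_or_lt_of_le hs₀ with h | h
    · rw [← h] at hFs₀; exact absurd hF0 hFs₀
    · exact h
  have hFs₀' : 0 < F s₀ := lt_of_le_of_ne (hFnn _ hs₀) (Ne.symm hFs₀)
  -- the function `G`
  set G : ℝ → ℝ := fun x => F (Real.exp x) with hG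
  have hGmono : Monotone G := by
    intro x y hxy
    exact hmono _ _ (Real.exp_pos x) (Real.exp_le_exp.2 hxy)
  have hcount := hGmono.countable_not_continuousAt
  set D := {x | ¬ContinuousAt G x} with hD
  set L := Real.log 2 with hL
  have hL0 : 0 < L := Real.log_pos (by norm_num)
  -- a generic point
  obtain ⟨a, ha1, ha2⟩ : ∃ a, Real.log s₀ < a ∧ ∀ (m : ℕ) (j : ℤ),
      ContinuousAt G (a + j * (L / (m + 1))) := by
    set E : Set ℝ := ⋃ (m : ℕ) (j : ℤ), (fun x => x + (j * (L / (m + 1)) : ℝ)) ⁻¹' D with hE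
    have hEc : E.Countable := by
      refine Set.countable_iUnion (fun m => Set.countable_iUnion (fun j => ?_))
      exact hcount.preimage (add_left_injective _)
    have hd := hEc.dense_compl ℝ
    obtain ⟨a, ha1, ha2⟩ := hd.inter_open_nonempty (Set.Ioi (Real.log s₀)) isOpen_Ioi
      ⟨Real.log s₀ + 1, by simp⟩
    refine ⟨a, ha1, fun m j => ?_⟩
    by_contra hcon
    apply ha2
    rw [hE]
    simp only [Set.mem_iUnion, Set.mem_preimage]
    exact ⟨m, j, hcon⟩
  have hGa : 0 < G a := by
    refine lt_of_lt_of_le hFs₀' (hmono _ _ hs₀' ?_)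
    rw [← Real.log_le_iff_le_exp hs₀']
    exact ha1.le
  -- continuity of `F` at `exp`
  have hcontF : ∀ x, ContinuousAt G x → ContinuousAt F (Real.exp x) := by
    intro x hx
    have h1 : ContinuousAt (fun y => G (Real.log y)) (Real.exp x) := by
      refine ContinuousAt.comp (g := G) (f := Real.log) ?_
        (Real.continuousAt_log (Real.exp_pos x).ne')
      rw [Real.log_exp]; exact hx
    refine h1.congr ?_
    filter_upwards [lt_mem_nhds (Real.exp_pos x)] with y hy
    simp only [hG]
    rw [Real.exp_log hy]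
  -- arithmetic progressions
  have hprog : ∀ m : ℕ, ∀ j : ℤ, 0 < G (a + j * (L / (m + 1))) →
      G (a + (j - 1 : ℤ) * (L / (m + 1))) * G (a + (j + 1 : ℤ) * (L / (m + 1))) =
        G (a + j * (L / (m + 1))) ^ 2 := by
    intro m j hpos
    set h := L / ((m : ℝ) + 1) with hh
    have hh0 : 0 < h := by positivity
    set ρ := Real.exp h with hρ
    have hρ1 : 1 < ρ := Real.one_lt_exp_iff.2 hh0
    have hρz : ∀ i : ℤ, ρ ^ i = Real.exp (i * h) := fun i => by
      rw [hρ, ← Real.rpow_intCast, ← Real.exp_mul, mul_comm]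
    set A := Real.exp (a + j * h) with hA
    have hA0 : 0 < A := Real.exp_pos _
    have hAi : ∀ i : ℤ, A * ρ ^ i = Real.exp (a + (j + i : ℤ) * h) := by
      intro i
      rw [hA, hρz, ← Real.exp_add]
      congr 1
      push_cast
      ring
    have hlc : ∀ i : ℤ, F (A * ρ ^ (i - 1)) * F (A * ρ ^ (i + 1)) ≤ F (A * ρ ^ i) ^ 2 := by
      intro i
      have hρ0 : ρ ≠ 0 := by positivity
      have e1 : A * ρ ^ (i - 1) = (A * ρ ^ i) * ρ⁻¹ := by
        rw [zpow_sub_one₀ hρ0]; ring
      have e2 : A * ρ ^ (i + 1) = (A * ρ ^ i) * ρ := by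
        rw [zpow_add_one₀ hρ0]; ring
      have c1 : ContinuousAt F ((A * ρ ^ i) * ρ) := by
        rw [← e2, hAi]
        exact hcontF _ (ha2 m _)
      have c2 : ContinuousAt F ((A * ρ ^ i) * ρ⁻¹) := by
        rw [← e1, hAi]
        exact hcontF _ (ha2 m _)
      rw [e1, e2]
      exact logConcave_of_continuousAt hF0 hFnn hF (by positivity) hρ1 c1 c2
    have := geometric_of_logConcave hF0 hFnn hF hmono hA0 hρ1 hlc hpos
    have e1 : A * ρ⁻¹ = Real.exp (a + (j - 1 : ℤ) * h) := by
      have := hAi (-1)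
      rw [zpow_neg_one] at this
      rw [this]
      rfl
    have e2 : A * ρ = Real.exp (a + (j + 1 : ℤ) * h) := by
      have := hAi 1
      rw [zpow_one] at this
      rw [this]
    rw [e1, e2] at this
    exact this
  -- positivity along the progression
  have hposR : ∀ m : ℕ, ∀ j : ℕ, 0 < G (a + (j : ℤ) * (L / (m + 1))) := by
    intro m j
    refine lt_of_lt_of_le hGa (hGmono ?_)
    have : 0 ≤ (j : ℝ) * (L / (m + 1)) := by positivity
    push_cast
    linarith
  have hposL : ∀ m : ℕ, ∀ j : ℕ, 0 < G (a + (-(j : ℤ) : ℤ) * (L / (m + 1))) := by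
    intro m j
    induction j with
    | zero => simpa using hGa
    | succ j ih =>
      have h1 := hprog m _ ih
      have h2 : 0 < G (a + (-(j : ℤ) - 1 : ℤ) * (L / (m + 1))) *
          G (a + (-(j : ℤ) + 1 : ℤ) * (L / (m + 1))) := by rw [h1]; positivity
      have h3 : 0 ≤ G (a + (-(j : ℤ) - 1 : ℤ) * (L / (m + 1))) := hFnn _ (Real.exp_pos _).le
      have h4 : G (a + (-(j : ℤ) - 1 : ℤ) * (L / (m + 1))) ≠ 0 := by
        intro h; rw [h, zero_mul] at h2; exact lt_irrefl _ h2
      have h5 : (-((j + 1 : ℕ) : ℤ) : ℤ) = -(j : ℤ) - 1 := by push_cast; ring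
      rw [h5]
      exact lt_of_le_of_ne h3 (Ne.symm h4)
  have hpos : ∀ m : ℕ, ∀ j : ℤ, 0 < G (a + j * (L / (m + 1))) := by
    intro m j
    rcases Int.eq_nat_or_neg j with ⟨n, rfl | rfl⟩
    · exact hposR m n
    · exact hposL m n
  -- the logarithm is affine along the progression
  have haff : ∀ m : ℕ, ∀ j : ℤ, Real.log (G (a + j * (L / (m + 1)))) =
      Real.log (G a) + j * (Real.log (G (a + L / (m + 1))) - Real.log (G a)) := by
    intro m
    set ℓ : ℤ → ℝ := fun j => Real.log (G (a + j * (L / (m + 1)))) with hℓ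
    have hrec : ∀ j : ℤ, ℓ (j - 1) + ℓ (j + 1) = 2 * ℓ j := by
      intro j
      have h1 := congrArg Real.log (hprog m j (hpos m j))
      rw [Real.log_mul (hpos m _).ne' (hpos m _).ne', Real.log_pow] at h1
      simpa [hℓ] using h1
    have h0 : ℓ 0 = Real.log (G a) := by simp [hℓ]
    have h1 : ℓ 1 = Real.log (G (a + L / (m + 1))) := by simp [hℓ]
    rw [← h0, ← h1]
    have hR : ∀ j : ℕ, ℓ j = ℓ 0 + j * (ℓ 1 - ℓ 0) ∧ ℓ (j + 1) = ℓ 0 + (j + 1) * (ℓ 1 - ℓ 0) := by
      intro j
      induction j with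
      | zero => simp
      | succ j ih =>
        have h2 := hrec (j + 1)
        rw [show ((j : ℤ) + 1 - 1) = j by ring] at h2
        push_cast
        refine ⟨ih.2, ?_⟩
        linarith [ih.1, ih.2]
    have hLf : ∀ j : ℕ, ℓ (-j) = ℓ 0 - j * (ℓ 1 - ℓ 0) ∧
        ℓ (-j - 1) = ℓ 0 - (j + 1) * (ℓ 1 - ℓ 0) := by
      intro j
      induction j with
      | zero =>
        have h2 := hrec 0
        simp only [zero_sub, zero_add] at h2
        simp only [Nat.cast_zero, neg_zero, zero_sub]
        constructor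
        · ring
        · linarith
      | succ j ih =>
        have h2 := hrec (-(j : ℤ) - 1)
        rw [show (-(j : ℤ) - 1 + 1) = -j by ring] at h2
        push_cast
        rw [show (-((j : ℤ) + 1)) = -(j : ℤ) - 1 by ring]
        refine ⟨ih.2, ?_⟩
        linarith [ih.1, ih.2]
    intro j
    rcases Int.eq_nat_or_neg j with ⟨n, rfl | rfl⟩
    · simpa only [hℓ, Int.cast_natCast] using (hR n).1
    · have := (hLf n).1
      change ℓ (-(n : ℤ)) = _
      rw [this]
      push_cast
      ring
  set Δ := Real.log (G (a + L)) - Real.log (G a) with hΔ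
  have hstep : ∀ m : ℕ, Real.log (G (a + L / (m + 1))) - Real.log (G a) = Δ / (m + 1) := by
    intro m
    have h1 := haff m (m + 1)
    have h2 : ((m : ℝ) + 1) * (L / (m + 1)) = L := by field_simp
    push_cast at h1
    rw [h2] at h1
    rw [hΔ, h1]
    field_simp
    ring
  have hrat : ∀ q : ℚ, G (a + q * L) = G a * Real.exp (q * Δ) := by
    intro q
    obtain ⟨m, hm⟩ : ∃ m : ℕ, q.den = m + 1 := ⟨q.den - 1, by have := q.pos; omega⟩
    have hq : (q : ℝ) = q.num / ((m : ℝ) + 1) := by
      have := Rat.cast_def (K := ℝ) q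
      rw [this, hm]
      push_cast
      rfl
    have h1 := haff m q.num
    rw [hstep] at h1
    have h2 : a + q.num * (L / (m + 1)) = a + q * L := by rw [hq]; ring
    rw [h2] at h1
    have h3 : 0 < G (a + q * L) := by
      have := hpos m q.num
      rwa [h2] at this
    have h4 : q.num * (Δ / (m + 1)) = q * Δ := by rw [hq]; ring
    rw [h4] at h1
    have h5 := congrArg Real.exp h1
    rw [Real.exp_log h3, Real.exp_add, Real.exp_log hGa] at h5
    exact h5
  -- `Δ ≥ log 2`
  have hΔL : L ≤ Δ := by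
    have h1 : 2 * G a ≤ G (a + L) := by
      have := two_mul_le hFnn hF (s := Real.exp a) (t := Real.exp (a + L)) (Real.exp_pos a)
        (by rw [Real.exp_add, hL, Real.exp_log (by norm_num)]; linarith)
      exact this
    have h2 : Real.log (2 * G a) ≤ Real.log (G (a + L)) :=
      Real.log_le_log (by positivity) h1
    rw [Real.log_mul (by norm_num) hGa.ne'] at h2
    rw [hΔ]
    linarith
  have hΔ0 : 0 < Δ := lt_of_lt_of_le hL0 hΔL
  -- all real multiples
  have hreal : ∀ x : ℝ, G (a + x * L) = G a * Real.exp (x * Δ) := by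
    intro x
    apply le_antisymm
    · by_contra hcon
      push Not at hcon
      have hGx : 0 < G (a + x * L) := lt_trans (by positivity) hcon
      -- a rational `q > x` with `G a exp (q Δ) < G (a + x L)`
      set v := Real.log (G (a + x * L) / G a) / Δ with hv
      have hxv : x < v := by
        rw [hv, lt_div_iff₀ hΔ0, Real.lt_log_iff_exp_lt (by positivity), lt_div_iff₀ hGa]
        linarith
      obtain ⟨q, hq1, hq2⟩ := exists_rat_btwn hxv
      have h1 := hrat q
      have h2 : G (a + x * L) ≤ G (a + q * L) := hGmono (by nlinarith)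
      rw [h1] at h2
      rw [hv, lt_div_iff₀ hΔ0, Real.lt_log_iff_exp_lt (by positivity), lt_div_iff₀ hGa] at hq2
      linarith
    · by_contra hcon
      push Not at hcon
      obtain ⟨q₀, hq₀⟩ := exists_rat_lt x
      have hGx : 0 < G (a + x * L) := by
        refine lt_of_lt_of_le ?_ (hGmono (show a + q₀ * L ≤ a + x * L by nlinarith))
        rw [hrat]
        positivity
      set v := Real.log (G (a + x * L) / G a) / Δ with hv
      have hxv : v < x := by
        rw [hv, div_lt_iff₀ hΔ0, Real.log_lt_iff_lt_exp (by positivity), div_lt_iff₀ hGa]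
        linarith
      obtain ⟨q, hq1, hq2⟩ := exists_rat_btwn hxv
      have h1 := hrat q
      have h2 : G (a + q * L) ≤ G (a + x * L) := hGmono (by nlinarith)
      rw [h1] at h2
      rw [hv, div_lt_iff₀ hΔ0, Real.log_lt_iff_lt_exp (by positivity), div_lt_iff₀ hGa] at hq1
      linarith
  -- conclusion
  refine ⟨G a * Real.exp (-(a / L * Δ)), Δ / L, by positivity, by rwa [one_le_div hL0], ?_⟩
  intro t ht
  rcases eq_or_lt_of_le ht with h | h
  · rw [← h, hF0, Real.zero_rpow (by positivity), mul_zero]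
  · have h1 := hreal ((Real.log t - a) / L)
    have h2 : a + (Real.log t - a) / L * L = Real.log t := by field_simp; ring
    rw [h2] at h1
    have h3 : G (Real.log t) = F t := by simp only [hG]; rw [Real.exp_log h]
    rw [h3] at h1
    rw [h1, Real.rpow_def_of_pos h, mul_assoc, ← Real.exp_add]
    congr 2
    field_simp
    ring

end Pool.Agent.H62LR.PowerFormB
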