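import Mathlib
import Pool.Agent.H62LR.Mult

open Polynomial Finset

namespace Pool.Agent.H62LR

lemma PF.disc {b : ℕ → ℝ} (h : PF 2 b) : 4 * (b 0 * b 2) ≤ b 1 ^ 2 := by
  by_contra hcon
  push Not at hcon
  have h0 := h.1 0 (by norm_num)
  have h2 := h.1 2 le_rfl
  set D : ℝ := 4 * (b 0 * b 2) - b 1 ^ 2 with hD
  have hD0 : 0 < D := by rw [hD]; linarith
  have hs := Real.mul_self_sqrt hD0.le
  have hs0 := Real.sqrt_pos.2 hD0
  refine h.2 ⟨-b 1 / (2 * b 2), Real.sqrt D / (2 * b 2)⟩ (by simp only; positivity) ?_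
  unfold ev
  simp only [Finset.sum_range_succ, Finset.sum_range_zero, pow_zero, pow_one, mul_one, zero_add]
  apply Complex.ext
  · simp [pow_two]
    field_simp
    rw [Real.sq_sqrt hD0.le, hD]
    ring
  · simp [pow_two]
    field_simp
    ring

/-- **Newton's inequalities** -/
lemma MS.newton {n : ℕ} {e : ℕ → ℝ} (h : MS n e) {k : ℕ} (hk : k + 2 ≤ n) :
    e k * e (k + 2) ≤ e (k + 1) ^ 2 := by
  obtain ⟨m, rfl⟩ := Nat.exists_eq_add_of_le hk
  have h1 : MS (m + 2 + k) e := by
    have : m + 2 + k = k + 2 + m := by ring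
    rw [this]; exact h
  have h2 := (MS.shift k h1).reverse
  have h3 : MS (2 + m) (fun j => e (m + 2 - j + k)) := by
    have : 2 + m = m + 2 := by ring
    rw [this]; exact h2
  have h4 := (MS.shift m h3).disc
  simp only [Nat.choose_zero_right, Nat.choose_one_right, Nat.choose_self] at h4
  have e0 : m + 2 - (0 + m) + k = k + 2 := by omega
  have e1 : m + 2 - (1 + m) + k = k + 1 := by omega
  have e2 : m + 2 - (2 + m) + k = k := by omega
  rw [e0, e1, e2] at h4
  push_cast at h4
  nlinarith

/-- alternating sums of increasing sequences -/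
lemma alt_inc (T : ℕ → ℝ) (m : ℕ) (h0 : 0 ≤ T 0) (hinc : ∀ j, j < m → T j ≤ T (j + 1)) :
    0 ≤ (-1 : ℝ) ^ m * ∑ j ∈ range (m + 1), (-1) ^ j * T j ∧
      (-1 : ℝ) ^ m * ∑ j ∈ range (m + 1), (-1) ^ j * T j ≤ T m := by
  induction m with
  | zero => simpa using h0
  | succ m ih =>
    have h1 := ih (fun j hj => hinc j (by omega))
    have h2 := hinc m (by omega)
    rw [Finset.sum_range_succ, mul_add]
    have e1 : (-1 : ℝ) ^ (m + 1) * ((-1) ^ (m + 1) * T (m + 1)) = T (m + 1) := by
      rw [← mul_assoc, ← mul_pow]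
      norm_num
    rw [e1, pow_succ]
    constructor
    · nlinarith [h1.1, h1.2]
    · nlinarith [h1.1, h1.2]

/-- alternating sums of decreasing sequences -/
lemma alt_dec (T : ℕ → ℝ) (m l : ℕ) (h0 : 0 ≤ T (m + l)) (hdec : ∀ j, m ≤ j → j < m + l → T (j + 1) ≤ T j) :
    0 ≤ (-1 : ℝ) ^ m * ∑ j ∈ Finset.Ico m (m + l + 1), (-1) ^ j * T j ∧
      (-1 : ℝ) ^ m * ∑ j ∈ Finset.Ico m (m + l + 1), (-1) ^ j * T j ≤ T m := by
  induction l generalizing m with
  | zero =>
    rw [add_zero, Nat.Ico_succ_singleton, Finset.sum_singleton, ← mul_assoc, ← mul_pow]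
    norm_num
    simpa using h0
  | succ l ih =>
    have h1 := ih (m + 1) (by rw [show m + 1 + l = m + (l + 1) by ring]; exact h0)
      (fun j hj hj' => hdec j (by omega) (by omega))
    have h2 := hdec m le_rfl (by omega)
    rw [Finset.sum_eq_sum_Ico_succ_bot (by omega), mul_add, ← mul_assoc, ← mul_pow]
    rw [show m + 1 + l + 1 = m + (l + 1) + 1 by ring, pow_succ] at h1
    norm_num at h1 ⊢
    constructor
    · nlinarith [h1.1, h1.2]
    · nlinarith [h1.1, h1.2]

/-- sign of the polynomial at `-X`, `X = √(a_k / a_{k+2})` -/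
lemma kurtz_sign {n : ℕ} {a : ℕ → ℝ} (ha : ∀ k ≤ n, 0 < a k)
    (h : ∀ k, k + 2 ≤ n → 4 * (a k * a (k + 2)) < a (k + 1) ^ 2) {k : ℕ} (hk : k + 2 ≤ n)
    {X : ℝ} (hX : 0 < X) (hXk : X ^ 2 = a k / a (k + 2)) :
    0 < (-1 : ℝ) ^ (k + 1) * (poly n a).eval (-X) := by
  set T : ℕ → ℝ := fun j => a j * X ^ j with hT
  have hTpos : ∀ j ≤ n, 0 < T j := fun j hj => mul_pos (ha j hj) (pow_pos hX j)
  have hTlc : ∀ j, j + 2 ≤ n → T j * T (j + 2) ≤ T (j + 1) ^ 2 := by
    intro j hj
    have h1 := h j hj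
    have h2 : 0 < a j * a (j + 2) := mul_pos (ha j (by omega)) (ha _ hj)
    have e1 : T j * T (j + 2) = (a j * a (j + 2)) * (X ^ (j + 1)) ^ 2 := by
      simp only [hT]; ring
    have e2 : T (j + 1) ^ 2 = a (j + 1) ^ 2 * (X ^ (j + 1)) ^ 2 := by
      simp only [hT]; ring
    rw [e1, e2]
    exact mul_le_mul_of_nonneg_right (by linarith) (by positivity)
  have hak2 := ha (k + 2) hk
  have hEq : T k = T (k + 2) := by
    simp only [hT]
    rw [pow_add, hXk]
    field_simp
  have hMid : 2 * T k < T (k + 1) := by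
    have h1 := h k hk
    have h2 : 4 * (T k * T (k + 2)) < T (k + 1) ^ 2 := by
      have e1 : T k * T (k + 2) = (a k * a (k + 2)) * (X ^ (k + 1)) ^ 2 := by
        simp only [hT]; ring
      have e2 : T (k + 1) ^ 2 = a (k + 1) ^ 2 * (X ^ (k + 1)) ^ 2 := by
        simp only [hT]; ring
      rw [e1, e2, ← mul_assoc]
      exact mul_lt_mul_of_pos_right h1 (by positivity)
    rw [← hEq] at h2
    have h3 : (2 * T k) ^ 2 < T (k + 1) ^ 2 := by nlinarith
    exact lt_of_pow_lt_pow_left₀ 2 (hTpos _ (by omega)).le h3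
  -- increasing part
  have hinc : ∀ i, ∀ j, j + i = k → T j ≤ T (j + 1) := by
    intro i
    induction i with
    | zero =>
      intro j hj
      rw [add_zero] at hj
      subst hj
      have := hTpos j (by omega)
      linarith
    | succ i ih =>
      intro j hj
      have h1 := ih (j + 1) (by omega)
      have h2 := hTlc j (by omega)
      have h3 := hTpos (j + 1) (by omega)
      have h4 := hTpos j (by omega)
      have h5 := hTpos (j + 2) (by omega)
      have h6 : T j * T (j + 2) ≤ T (j + 1) * T (j + 2) := by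
        refine h2.trans ?_
        rw [pow_two]
        exact mul_le_mul_of_nonneg_left h1 h3.le
      exact le_of_mul_le_mul_right h6 h5
  have hdec : ∀ i, k + 1 + i + 1 ≤ n → T (k + 1 + i + 1) ≤ T (k + 1 + i) := by
    intro i
    induction i with
    | zero =>
      intro _
      have := hTpos k (by omega)
      rw [add_zero, show k + 1 + 1 = k + 2 by ring, ← hEq]
      linarith
    | succ i ih =>
      intro hi
      have h1 := ih (by omega)
      have h2 := hTlc (k + 1 + i) (by omega)
      have h3 := hTpos (k + 1 + i + 1) (by omega)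
      have h4 := hTpos (k + 1 + i) (by omega)
      have h6 : T (k + 1 + i) * T (k + 1 + i + 2) ≤ T (k + 1 + i) * T (k + 1 + i + 1) := by
        refine h2.trans ?_
        rw [pow_two]
        exact mul_le_mul_of_nonneg_right h1 h3.le
      exact le_of_mul_le_mul_left h6 h4
  have hA := alt_inc T k (hTpos 0 (by omega)).le (fun j hj => hinc (k - j) j (by omega))
  have hB := alt_dec T (k + 2) (n - (k + 2)) (by
      rw [show k + 2 + (n - (k + 2)) = n by omega]; exact (hTpos n le_rfl).le) (fun j hj hj' => by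
        have := hdec (j - (k + 1)) (by omega)
        rw [show k + 1 + (j - (k + 1)) = j by omega] at this
        exact this)
  rw [show k + 2 + (n - (k + 2)) + 1 = n + 1 by omega] at hB
  have hsum : (poly n a).eval (-X) = ∑ j ∈ range (k + 1), (-1) ^ j * T j +
      ((-1) ^ (k + 1) * T (k + 1) + ∑ j ∈ Finset.Ico (k + 2) (n + 1), (-1) ^ j * T j) := by
    rw [eval_poly, ← Finset.sum_range_add_sum_Ico _ (show k + 1 ≤ n + 1 by omega),
      Finset.sum_eq_sum_Ico_succ_bot (show k + 1 < n + 1 by omega)]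
    have e : ∀ j, a j * (-X) ^ j = (-1) ^ j * T j := by
      intro j
      simp only [hT]
      rw [neg_pow]
      ring
    simp only [e]
  rw [hsum, mul_add, mul_add]
  have e1 : (-1 : ℝ) ^ (k + 1) * ((-1) ^ (k + 1) * T (k + 1)) = T (k + 1) := by
    rw [← mul_assoc, ← mul_pow]
    norm_num
  have e2 : (-1 : ℝ) ^ (k + 1) = -((-1) ^ k) := by rw [pow_succ]; ring
  have e3 : (-1 : ℝ) ^ (k + 1) = -((-1) ^ (k + 2)) := by rw [pow_succ _ (k + 1)]; ring
  rw [e1]
  have f1 : (-1 : ℝ) ^ (k + 1) * ∑ j ∈ range (k + 1), (-1) ^ j * T j =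
      -((-1) ^ k * ∑ j ∈ range (k + 1), (-1) ^ j * T j) := by rw [e2]; ring
  have f2 : (-1 : ℝ) ^ (k + 1) * ∑ j ∈ Finset.Ico (k + 2) (n + 1), (-1) ^ j * T j =
      -((-1) ^ (k + 2) * ∑ j ∈ Finset.Ico (k + 2) (n + 1), (-1) ^ j * T j) := by
    conv_lhs => rw [e3]
    ring
  rw [f1, f2]
  have := hEq
  linarith [hA.2, hB.2]

/-- **Kurtz / Hutchinson criterion.** -/
theorem pf_of_kurtz {n : ℕ} {a : ℕ → ℝ} (ha : ∀ k ≤ n, 0 < a k)
    (h : ∀ k, k + 2 ≤ n → 4 * (a k * a (k + 2)) < a (k + 1) ^ 2) : PF n a := by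
  rcases Nat.eq_zero_or_pos n with h0 | hn
  · subst h0
    exact PF.zero (ha 0 le_rfl)
  set q : ℝ → ℝ := fun x => (poly n a).eval (-x) with hq
  have hqc : Continuous q := by
    rw [hq]
    exact (poly n a).continuous.comp continuous_neg
  -- the last point
  obtain ⟨Y, hY1, hY2, hY3⟩ : ∃ Y : ℝ, (∀ k, k + 2 ≤ n → Real.sqrt (a k / a (k + 2)) < Y) ∧ 0 < Y ∧
      0 < (-1 : ℝ) ^ n * q Y := by
    set Y : ℝ := 1 + (∑ j ∈ range n, a j / a (j + 1) + ∑ j ∈ range (n - 1), Real.sqrt (a j / a (j + 2)))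
      with hYdef
    have hnn1 : ∀ j ∈ range n, 0 ≤ a j / a (j + 1) := by
      intro j hj
      have hj' := Finset.mem_range.1 hj
      exact (div_pos (ha j (by omega)) (ha _ (by omega))).le
    have hs1 := Finset.sum_nonneg hnn1
    have hs2 : 0 ≤ ∑ j ∈ range (n - 1), Real.sqrt (a j / a (j + 2)) :=
      Finset.sum_nonneg (fun j _ => Real.sqrt_nonneg _)
    have hY0 : 0 < Y := by rw [hYdef]; linarith
    refine ⟨Y, ?_, hY0, ?_⟩
    · intro k hk
      have h1 := Finset.single_le_sum (f := fun j => Real.sqrt (a j / a (j + 2)))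
        (fun j _ => Real.sqrt_nonneg _) (Finset.mem_range.2 (show k < n - 1 by omega))
      rw [hYdef]
      linarith
    · set T : ℕ → ℝ := fun j => a j * Y ^ j with hT
      have hlt : ∀ j, j < n → T j < T (j + 1) := by
        intro j hj
        have h1 := Finset.single_le_sum hnn1 (Finset.mem_range.2 hj)
        have h2 : a j / a (j + 1) < Y := by
          rw [hYdef]; linarith
        rw [div_lt_iff₀ (ha _ (by omega))] at h2
        simp only [hT]
        rw [pow_succ]
        have := pow_pos hY0 j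
        nlinarith
      obtain ⟨m, rfl⟩ := Nat.exists_eq_succ_of_ne_zero hn.ne'
      have hA := alt_inc T m (by simp only [hT, pow_zero, mul_one]; exact (ha 0 (by omega)).le)
        (fun j hj => (hlt j (by omega)).le)
      have h3 := hlt m (by omega)
      have e : ∀ j, a j * (-Y) ^ j = (-1) ^ j * T j := by
        intro j
        simp only [hT]
        rw [neg_pow]
        ring
      have e1 : (-1 : ℝ) ^ (m + 1) * ((-1) ^ (m + 1) * T (m + 1)) = T (m + 1) := by
        rw [← mul_assoc, ← mul_pow]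
        norm_num
      simp only [hq, eval_poly, e]
      rw [Nat.succ_eq_add_one, Finset.sum_range_succ, mul_add, e1]
      have e2 : (-1 : ℝ) ^ (m + 1) * ∑ j ∈ range (m + 1), (-1) ^ j * T j =
          -((-1) ^ m * ∑ j ∈ range (m + 1), (-1) ^ j * T j) := by rw [pow_succ]; ring
      rw [e2]
      linarith [hA.2]
  -- the points
  set y : ℕ → ℝ := fun k => if k = 0 then 0 else if k < n then Real.sqrt (a (k - 1) / a (k + 1))
    else Y with hy
  have hy0 : y 0 = 0 := by simp [hy]
  have hyk : ∀ k, k + 2 ≤ n → y (k + 1) = Real.sqrt (a k / a (k + 2)) := by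
    intro k hk
    simp only [hy]
    rw [if_neg (by omega), if_pos (by omega)]
    rfl
  have hyn : y n = Y := by
    simp only [hy]
    rw [if_neg (by omega), if_neg (by omega)]
  have hypos : ∀ k, k + 2 ≤ n → 0 < y (k + 1) := by
    intro k hk
    rw [hyk k hk]
    exact Real.sqrt_pos.2 (div_pos (ha _ (by omega)) (ha _ hk))
  have hsign : ∀ k, k ≤ n → 0 < (-1 : ℝ) ^ k * q (y k) := by
    intro k hk
    rcases Nat.eq_zero_or_pos k with h0 | h0
    · subst h0
      rw [hy0]
      simp only [hq, neg_zero, pow_zero, one_mul]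
      rw [← coeff_zero_eq_eval_zero, coeff_poly, if_pos (Nat.zero_le _)]
      exact ha 0 (by omega)
    · obtain ⟨j, rfl⟩ := Nat.exists_eq_succ_of_ne_zero h0.ne'
      rw [Nat.succ_eq_add_one] at hk ⊢
      rcases Nat.lt_or_ge (j + 1) n with h1 | h1
      · refine kurtz_sign ha h (k := j) (by omega) (hypos j (by omega)) ?_
        rw [hyk j (by omega), Real.sq_sqrt (div_pos (ha _ (by omega)) (ha _ (by omega))).le]
      · have : j + 1 = n := by omega
        rw [this, hyn]
        exact hY3
  have hstep : ∀ k, k < n → y k < y (k + 1) := by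
    intro k hk
    rcases Nat.eq_zero_or_pos k with h0 | h0
    · subst h0
      rw [hy0]
      rcases Nat.lt_or_ge 1 n with h1 | h1
      · exact hypos 0 (by omega)
      · have : n = 1 := by omega
        rw [zero_add, show (1 : ℕ) = n by omega, hyn]
        exact hY2
    · obtain ⟨j, rfl⟩ := Nat.exists_eq_succ_of_ne_zero h0.ne'
      rw [Nat.succ_eq_add_one] at hk ⊢
      rcases Nat.lt_or_ge (j + 1 + 1) n with h1 | h1
      · rw [hyk j (by omega), hyk (j + 1) (by omega)]
        apply Real.sqrt_lt_sqrt (div_pos (ha _ (by omega)) (ha _ (by omega))).le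
        have p0 := ha j (by omega)
        have p1 := ha (j + 1) (by omega)
        have p2 := ha (j + 2) (by omega)
        have p3 := ha (j + 1 + 2) (by omega)
        have q1 := h j (by omega)
        have q2 := h (j + 1) (by omega)
        rw [show j + 1 + 1 = j + 2 by ring] at q2
        rw [div_lt_div_iff₀ p2 p3]
        have r1 : a j * a (j + 2) < a (j + 1) ^ 2 := by
          have := mul_pos p0 p2
          linarith
        have r2 : a (j + 1) * a (j + 1 + 2) < a (j + 2) ^ 2 := by
          have := mul_pos p1 p3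
          linarith
        have r3 : (a j * a (j + 2)) * (a (j + 1) * a (j + 1 + 2)) <
            a (j + 1) ^ 2 * a (j + 2) ^ 2 :=
          mul_lt_mul'' r1 r2 (mul_pos p0 p2).le (mul_pos p1 p3).le
        have r4 : (a (j + 1) * a (j + 2)) * (a j * a (j + 1 + 2)) <
            (a (j + 1) * a (j + 2)) * (a (j + 1) * a (j + 2)) := by nlinarith
        exact lt_of_mul_lt_mul_left r4 (mul_pos p1 p2).le
      · have : j + 1 + 1 = n := by omega
        rw [this, hyn, hyk j (by omega)]
        exact hY1 j (by omega)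
  -- the roots
  have hroot : ∀ k, k < n → ∃ z, y k < z ∧ z < y (k + 1) ∧ q z = 0 := by
    intro k hk
    have h1 := hsign k (by omega)
    have h2 := hsign (k + 1) (by omega)
    have hg : ContinuousOn (fun x => (-1 : ℝ) ^ k * q x) (Set.Icc (y k) (y (k + 1))) :=
      (continuous_const.mul hqc).continuousOn
    have h3 : (-1 : ℝ) ^ k * q (y (k + 1)) < 0 := by
      rw [pow_succ] at h2
      linarith
    obtain ⟨z, hz, hz0⟩ := intermediate_value_Ioo' (hstep k hk).le hg ⟨h3, h1⟩
    refine ⟨z, hz.1, hz.2, ?_⟩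
    have : (-1 : ℝ) ^ k ≠ 0 := by positivity
    exact (mul_eq_zero.1 hz0).resolve_left this
  choose! z hz1 hz2 hz3 using hroot
  have hmono : ∀ i j, i < j → j < n → z i < z j := by
    intro i j hij hj
    have hyy : ∀ d, i + 1 + d ≤ n → y (i + 1) ≤ y (i + 1 + d) := by
      intro d
      induction d with
      | zero => intro _; exact le_rfl
      | succ d ih =>
        intro hd
        exact (ih (by omega)).trans (hstep (i + 1 + d) (by omega)).le
    have h1 := hyy (j - (i + 1)) (by omega)
    rw [show i + 1 + (j - (i + 1)) = j by omega] at h1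
    exact (hz2 i (by omega)).trans_le (h1.trans (hz1 j hj).le)
  refine pf_of_roots ha ((range n).image (fun k => -z k)) ?_ ?_
  · rw [Finset.card_image_of_injOn, Finset.card_range]
    intro i hi j hj hij
    have hi' : i < n := by simpa using hi
    have hj' : j < n := by simpa using hj
    simp only [neg_inj] at hij
    rcases lt_trichotomy i j with h1 | h1 | h1
    · exact absurd hij (hmono i j h1 hj').ne
    · exact h1
    · exact absurd hij (hmono j i h1 hi').ne'
  · intro x hx
    obtain ⟨k, hk, rfl⟩ := Finset.mem_image.1 hx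
    exact hz3 k (Finset.mem_range.1 hk)

/-- the coefficientwise square (Malo) -/
lemma PF.sq {n : ℕ} {a : ℕ → ℝ} (h : PF n a) : PF n (fun k => a k ^ (2 : ℝ)) := by
  refine ((ms_choose n le_rfl).apply (h.comp h)).congr (fun k hk => ?_)
  have := (choose_pos' hk).ne'
  rw [Real.rpow_one, Real.rpow_two]
  field_simp

/-- all real powers `r ≥ 2` in degree at most `5` -/
theorem pf_rpow_small {n : ℕ} (hn : n ≤ 5) {a : ℕ → ℝ} (h : PF n a) {r : ℝ} (hr : 2 ≤ r) :
    PF n (fun k => a k ^ r) := by
  rcases hr.eq_or_lt with h2 | h2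
  · subst h2
    exact h.sq
  refine pf_of_kurtz (fun k hk => Real.rpow_pos_of_pos (h.1 k hk) r) (fun k hk => ?_)
  have hms : MS n (fun k => a k / (n.choose k : ℝ)) := by
    refine h.congr (fun k hk => ?_)
    have := (choose_pos' hk).ne'
    field_simp
  have h3 := hms.newton hk
  have p0 := h.1 k (by omega)
  have p1 := h.1 (k + 1) (by omega)
  have p2 := h.1 (k + 2) (by omega)
  have c0 := choose_pos' (show k ≤ n by omega)
  have c1 := choose_pos' (show k + 1 ≤ n by omega)
  have c2 := choose_pos' (show k + 2 ≤ n by omega)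
  rw [div_mul_div_comm, div_pow, div_le_div_iff₀ (mul_pos c0 c2) (pow_pos c1 2)] at h3
  have h4 : 2 * ((n.choose k : ℝ) * (n.choose (k + 2) : ℝ)) ≤ (n.choose (k + 1) : ℝ) ^ 2 := by
    have : 2 * (n.choose k * n.choose (k + 2)) ≤ (n.choose (k + 1)) ^ 2 := by
      interval_cases n
      all_goals first | omega | skip
      all_goals
        have hk' : k ≤ 3 := by omega
        interval_cases k
      all_goals first | omega | decide
    exact_mod_cast this
  have h5 : 2 * (a k * a (k + 2)) ≤ a (k + 1) ^ 2 := by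
    have h6 : (2 * (a k * a (k + 2))) * ((n.choose k : ℝ) * (n.choose (k + 2) : ℝ)) ≤
        a (k + 1) ^ 2 * ((n.choose k : ℝ) * (n.choose (k + 2) : ℝ)) := by
      refine le_trans ?_ h3
      have := mul_le_mul_of_nonneg_left h4 (mul_pos p0 p2).le
      linarith
    exact le_of_mul_le_mul_right h6 (mul_pos c0 c2)
  have h6 : (2 : ℝ) ^ r * (a k ^ r * a (k + 2) ^ r) ≤ (a (k + 1) ^ r) ^ 2 := by
    rw [← Real.mul_rpow p0.le p2.le, ← Real.mul_rpow (by norm_num) (mul_pos p0 p2).le,
      ← Real.rpow_natCast (a (k + 1) ^ r) 2, ← Real.rpow_mul p1.le, mul_comm r, Real.rpow_mul p1.le,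
      Real.rpow_natCast]
    exact Real.rpow_le_rpow (by positivity) h5 (by linarith)
  have h7 : (4 : ℝ) < 2 ^ r := by
    have : (4 : ℝ) = 2 ^ (2 : ℝ) := by norm_num
    rw [this]
    exact Real.rpow_lt_rpow_of_exponent_lt (by norm_num) h2
  refine lt_of_lt_of_le ?_ h6
  exact mul_lt_mul_of_pos_right h7 (by positivity)

end Pool.Agent.H62LR
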